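import Mathlib

namespace Pool.Agent.LibTGraph

open Real Set

/-- `log (1+p) ≥ 2p/(2+p)` and `-log(1-p) ≤ p/√(1-p)` combined -/
lemma neg_log_le (p : ℝ) (h0 : 0 < p) (h1 : p < 1) :
    -Real.log (1 - p) * √(1 - p) ≤ p := by
  have hpos : 0 < 1 - p := by linarith
  set s := √(1 - p) with hs
  have hs0 : 0 < s := Real.sqrt_pos.2 hpos
  have hs2 : s ^ 2 = 1 - p := Real.sq_sqrt hpos.le
  have hlog : Real.log (1 - p) = 2 * Real.log s := by
    rw [← hs2, Real.log_pow]; norm_num
  have hs1 : s ≤ 1 := by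
    have : s ^ 2 ≤ 1 ^ 2 := by rw [hs2]; linarith
    nlinarith
  have hx : 0 ≤ Real.log s⁻¹ := Real.log_nonneg (by rw [one_le_inv₀ hs0]; exact hs1)
  have h2 := Real.self_le_sinh_iff.2 hx
  rw [Real.sinh_log (by positivity)] at h2
  rw [Real.log_inv, inv_inv] at h2
  rw [hlog]
  have h3 : -Real.log s * s ≤ (s⁻¹ - s) / 2 * s := mul_le_mul_of_nonneg_right h2 hs0.le
  have h4 : (s⁻¹ - s) / 2 * s = (1 - s ^ 2) / 2 := by
    field_simp
  rw [h4, hs2] at h3
  linarith

lemma key_ineq (p : ℝ) (h0 : 0 < p) (h1 : p < 1) :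
    (1 - p) * (-Real.log (1 - p)) * (-Real.log (1 - p) + p) ≤
      Real.log (1 + p) * ((1 - p) * (-Real.log (1 - p)) + p * (1 + p)) := by
  set u := -Real.log (1 - p) with hu
  have hpos : 0 < 1 - p := by linarith
  have hu0 : 0 < u := by
    rw [hu]; linarith [Real.log_neg hpos (by linarith)]
  have hw := Real.le_log_one_add_of_nonneg h0.le
  have hs := neg_log_le p h0 h1
  rw [← hu] at hs
  set s := √(1 - p) with hsdef
  have hs0 : 0 < s := Real.sqrt_pos.2 hpos
  have hs2 : s ^ 2 = 1 - p := Real.sq_sqrt hpos.le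
  have hsle : s ≤ 1 - p / 2 := by
    rw [hsdef]
    apply Real.sqrt_le_iff.2
    constructor
    · linarith
    · nlinarith
  -- (1-p) u^2 ≤ p^2, (1-p) u ≤ p s
  have e1 : (1 - p) * u ^ 2 ≤ p ^ 2 := by
    have : (u * s) ^ 2 ≤ p ^ 2 := by
      apply pow_le_pow_left₀ (by positivity) hs
    calc (1 - p) * u ^ 2 = (u * s) ^ 2 := by rw [mul_pow, hs2]; ring
      _ ≤ p ^ 2 := this
  have e2 : (1 - p) * u ≤ p * (1 - p / 2) := by
    calc (1 - p) * u = (u * s) * s := by rw [← hs2]; ring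
      _ ≤ p * s := mul_le_mul_of_nonneg_right hs hs0.le
      _ ≤ p * (1 - p / 2) := mul_le_mul_of_nonneg_left hsle h0.le
  have hbr : 0 ≤ (1 - p) * u + p * (1 + p) := by positivity
  have h3 : 2 * p / (p + 2) * ((1 - p) * u + p * (1 + p)) ≤
      Real.log (1 + p) * ((1 - p) * u + p * (1 + p)) :=
    mul_le_mul_of_nonneg_right hw hbr
  refine le_trans ?_ h3
  rw [div_mul_eq_mul_div, le_div_iff₀ (by linarith)]
  nlinarith [mul_nonneg h0.le h0.le, mul_nonneg (mul_nonneg h0.le h0.le) h0.le]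

/-- the function `R` -/
noncomputable def R (p : ℝ) : ℝ := (p * (-Real.log (1 - p))) / ((1 + p) * (-Real.log (1 - p ^ 2)))

lemma R_antitone : AntitoneOn R (Ioo 0 1) := by
  have hder : ∀ p ∈ Ioo (0 : ℝ) 1, HasDerivAt R
      (((1 * (-Real.log (1 - p)) + p * (-((-1) / (1 - p)))) * ((1 + p) * (-Real.log (1 - p ^ 2))) -
        (p * (-Real.log (1 - p))) * (1 * (-Real.log (1 - p ^ 2)) +
          (1 + p) * (-((-(2 * p)) / (1 - p ^ 2))))) /
        ((1 + p) * (-Real.log (1 - p ^ 2))) ^ 2) p := by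
    rintro p ⟨h0, h1⟩
    have hpos : 0 < 1 - p := by linarith
    have hpos2 : 0 < 1 - p ^ 2 := by nlinarith
    have hlog2 : Real.log (1 - p ^ 2) < 0 := Real.log_neg hpos2 (by nlinarith)
    have d1 : HasDerivAt (fun x : ℝ => 1 - x) (-1) p := by
      simpa using (hasDerivAt_id p).const_sub 1
    have d2 : HasDerivAt (fun x : ℝ => 1 - x ^ 2) (-(2 * p)) p := by
      simpa using (hasDerivAt_pow 2 p).const_sub 1
    have d3 : HasDerivAt (fun x : ℝ => 1 + x) 1 p := by
      simpa using (hasDerivAt_id p).const_add 1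
    have n1 : HasDerivAt (fun x : ℝ => x * (-Real.log (1 - x)))
        (1 * (-Real.log (1 - p)) + p * (-((-1) / (1 - p)))) p :=
      (hasDerivAt_id p).mul (d1.log hpos.ne').neg
    have n2 : HasDerivAt (fun x : ℝ => (1 + x) * (-Real.log (1 - x ^ 2)))
        (1 * (-Real.log (1 - p ^ 2)) + (1 + p) * (-((-(2 * p)) / (1 - p ^ 2)))) p :=
      d3.mul (d2.log hpos2.ne').neg
    have hne : (1 + p) * (-Real.log (1 - p ^ 2)) ≠ 0 := by
      apply ne_of_gt
      apply mul_pos <;> linarith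
    exact n1.div n2 hne
  apply antitoneOn_of_deriv_nonpos (convex_Ioo 0 1)
  · exact fun p hp => (hder p hp).continuousAt.continuousWithinAt
  · intro p hp
    rw [interior_Ioo] at hp
    exact (hder p hp).differentiableAt.differentiableWithinAt
  · intro p hp
    rw [interior_Ioo] at hp
    rw [(hder p hp).deriv]
    apply div_nonpos_of_nonpos_of_nonneg _ (by positivity)
    obtain ⟨h0, h1⟩ := hp
    have hpos : 0 < 1 - p := by linarith
    have hk := key_ineq p h0 h1
    have hlog : Real.log (1 - p ^ 2) = Real.log (1 - p) + Real.log (1 + p) := by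
      rw [← Real.log_mul hpos.ne' (by linarith)]
      congr 1
      ring
    rw [hlog]
    set u := -Real.log (1 - p) with hu
    set w := Real.log (1 + p) with hw
    have e1 : Real.log (1 - p) = -u := by rw [hu]; ring
    rw [e1]
    have e2 : (1 * u + p * (-((-1) / (1 - p)))) * ((1 + p) * (-(-u + w))) -
        (p * u) * (1 * (-(-u + w)) + (1 + p) * (-((-(2 * p)) / (1 - p ^ 2)))) =
        ((1 - p) * u * (u + p) - w * ((1 - p) * u + p * (1 + p))) / (1 - p) := by
      have h4 : (1 - p ^ 2) = (1 - p) * (1 + p) := by ring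
      have h5 : (1 : ℝ) + p ≠ 0 := by linarith
      have h6 : (1 : ℝ) - p ≠ 0 := hpos.ne'
      rw [h4]
      field_simp
      ring
    rw [e2]
    apply div_nonpos_of_nonpos_of_nonneg _ hpos.le
    linarith

end Pool.Agent.LibTGraph
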