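import Mathlib
import Pool.Agent.LibTGraph.Analytic

namespace Pool.Agent.LibTGraph

open Real Set

/-- the relation between the parameters -/
structure Par (p p' α : ℝ) : Prop where
  p'0 : 0 < p'
  lt : p' < p
  p1 : p < 1
  α0 : 0 < α
  α1 : α < 1
  rel : 1 - p' ^ 2 = (1 - p ^ 2) ^ α

lemma Par.p0 {p p' α : ℝ} (h : Par p p' α) : 0 < p := lt_trans h.p'0 h.lt

lemma Par.αp_le {p p' α : ℝ} (h : Par p p' α) : α * p ≤ p' := by
  have hp0 := h.p0
  have h1 := rpow_one_add_le_one_add_mul_self (s := -p ^ 2) (by nlinarith [h.p1]) h.α0.le h.α1.le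
  have h2 : (1 + -p ^ 2 : ℝ) = 1 - p ^ 2 := by ring
  rw [h2, ← h.rel] at h1
  have h3 : α * p ^ 2 ≤ p' ^ 2 := by linarith
  have h4 : (α * p) ^ 2 ≤ p' ^ 2 := by
    have : (α * p) ^ 2 = α * (α * p ^ 2) := by ring
    rw [this]
    have hα := h.α1
    have hα0 := h.α0
    nlinarith [mul_pos hα0 (pow_pos hp0 2)]
  exact (abs_le_of_sq_le_sq' h4 h.p'0.le).2

lemma F1 {p p' α : ℝ} (h : Par p p' α) (δ : ℝ) (hδ : 1 ≤ δ) :
    (1 - p') + p' * (1 - p') ^ δ ≤ ((1 - p) + p * (1 - p) ^ δ) ^ α := by
  have hp0 := h.p0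
  have hp1 := h.p1
  have hp'0 := h.p'0
  have hp'1 : p' < 1 := lt_trans h.lt h.p1
  have hq : 0 < 1 - p := by linarith
  have hq' : 0 < 1 - p' := by linarith
  set a := -Real.log (1 - p) with ha
  set a' := -Real.log (1 - p') with ha'
  have ha0 : 0 < a := by rw [ha]; linarith [Real.log_neg hq (by linarith)]
  have ha'0 : 0 < a' := by rw [ha']; linarith [Real.log_neg hq' (by linarith)]
  have haa : a' ≤ a := by
    rw [ha, ha']
    have := Real.log_le_log hq (show 1 - p ≤ 1 - p' by linarith [h.lt])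
    linarith
  -- consequence of the monotonicity of R
  have hR : α * p * a * (1 + p') ≤ a' * p' * (1 + p) := by
    have h1 := R_antitone (show p' ∈ Ioo (0 : ℝ) 1 from ⟨hp'0, hp'1⟩)
      (show p ∈ Ioo (0 : ℝ) 1 from ⟨hp0, hp1⟩) h.lt.le
    unfold R at h1
    have hc : 0 < -Real.log (1 - p ^ 2) := by
      have := Real.log_neg (show 0 < 1 - p ^ 2 by nlinarith) (by nlinarith)
      linarith
    have hc' : -Real.log (1 - p' ^ 2) = α * (-Real.log (1 - p ^ 2)) := by
      rw [h.rel, Real.log_rpow (by nlinarith)]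
      ring
    rw [hc', ← ha, ← ha'] at h1
    set c := -Real.log (1 - p ^ 2) with hcdef
    have hα0 := h.α0
    rw [div_le_div_iff₀ (by positivity) (by positivity)] at h1
    have h2 : (α * p * a * (1 + p')) * c ≤ (a' * p' * (1 + p)) * c := by
      calc (α * p * a * (1 + p')) * c = p * a * ((1 + p') * (α * c)) := by ring
        _ ≤ p' * a' * ((1 + p) * c) := h1
        _ = (a' * p' * (1 + p)) * c := by ring
    exact le_of_mul_le_mul_right h2 hc
  -- the function D
  let D : ℝ → ℝ := fun x => α * Real.log ((1 - p) + p * Real.exp (-a * x)) -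
    Real.log ((1 - p') + p' * Real.exp (-a' * x))
  have hpos : ∀ x : ℝ, 0 < (1 - p) + p * Real.exp (-a * x) := fun x => by positivity
  have hpos' : ∀ x : ℝ, 0 < (1 - p') + p' * Real.exp (-a' * x) := fun x => by positivity
  have hder : ∀ x : ℝ, HasDerivAt D
      (α * ((p * (Real.exp (-a * x) * (-a))) / ((1 - p) + p * Real.exp (-a * x))) -
        (p' * (Real.exp (-a' * x) * (-a'))) / ((1 - p') + p' * Real.exp (-a' * x))) x := by
    intro x
    have e1 : HasDerivAt (fun x : ℝ => -a * x) (-a) x := by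
      simpa using (hasDerivAt_id x).const_mul (-a)
    have e2 : HasDerivAt (fun x : ℝ => -a' * x) (-a') x := by
      simpa using (hasDerivAt_id x).const_mul (-a')
    have f1 : HasDerivAt (fun x : ℝ => (1 - p) + p * Real.exp (-a * x))
        (p * (Real.exp (-a * x) * (-a))) x := (e1.exp.const_mul p).const_add (1 - p)
    have f2 : HasDerivAt (fun x : ℝ => (1 - p') + p' * Real.exp (-a' * x))
        (p' * (Real.exp (-a' * x) * (-a'))) x := (e2.exp.const_mul p').const_add (1 - p')
    exact ((f1.log (hpos x).ne').const_mul α).sub (f2.log (hpos' x).ne')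
  have hmono : MonotoneOn D (Ici 1) := by
    apply monotoneOn_of_deriv_nonneg (convex_Ici 1)
    · exact fun x _ => (hder x).continuousAt.continuousWithinAt
    · exact fun x _ => (hder x).differentiableAt.differentiableWithinAt
    · intro x hx
      rw [interior_Ici] at hx
      have hx1 : (1 : ℝ) < x := hx
      rw [(hder x).deriv]
      set s := x - 1 with hs
      have hs0 : 0 < s := by rw [hs]; linarith
      have hE : Real.exp (-a * x) = (1 - p) * (Real.exp (a * s))⁻¹ := by
        have e0 : -a * x = Real.log (1 - p) + -(a * s) := by rw [hs, ha]; ring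
        rw [← Real.exp_neg, e0, Real.exp_add, Real.exp_log hq]
      have hE' : Real.exp (-a' * x) = (1 - p') * (Real.exp (a' * s))⁻¹ := by
        have e0 : -a' * x = Real.log (1 - p') + -(a' * s) := by rw [hs, ha']; ring
        rw [← Real.exp_neg, e0, Real.exp_add, Real.exp_log hq']
      set X := Real.exp (a * s) with hX
      set X' := Real.exp (a' * s) with hX'
      have hXpos : 0 < X := Real.exp_pos _
      have hX'pos : 0 < X' := Real.exp_pos _
      have hX'1 : 1 ≤ X' := by
        rw [hX']; exact Real.one_le_exp (by positivity)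
      have hX1 : 1 ≤ X := by
        rw [hX]; exact Real.one_le_exp (by positivity)
      -- a (X' - 1) ≤ a' (X - 1)
      have hb : a * (X' - 1) ≤ a' * (X - 1) := by
        have h1 := one_add_mul_self_le_rpow_one_add (s := X' - 1) (by linarith)
          (p := a / a') ((one_le_div ha'0).2 haa)
        have h2 : (1 + (X' - 1)) ^ (a / a') = X := by
          rw [add_sub_cancel, hX', ← Real.exp_mul, hX]
          congr 1
          field_simp
        rw [h2] at h1
        have h3 : a / a' * (X' - 1) ≤ X - 1 := by linarith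
        calc a * (X' - 1) = a' * (a / a' * (X' - 1)) := by field_simp
          _ ≤ a' * (X - 1) := mul_le_mul_of_nonneg_left h3 ha'0.le
      have hmain : α * p * a * (X' + p') ≤ a' * p' * (X + p) := by
        have h1 : α * p * (a * (X' - 1)) ≤ p' * (a' * (X - 1)) := by
          have h2 : α * p * (a * (X' - 1)) ≤ p' * (a * (X' - 1)) := by
            apply mul_le_mul_of_nonneg_right h.αp_le
            apply mul_nonneg ha0.le; linarith
          have h3 : p' * (a * (X' - 1)) ≤ p' * (a' * (X - 1)) :=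
            mul_le_mul_of_nonneg_left hb hp'0.le
          linarith
        nlinarith
      rw [hE, hE']
      have g1 : α * ((p * ((1 - p) * X⁻¹ * (-a))) / ((1 - p) + p * ((1 - p) * X⁻¹))) =
          -(α * p * a / (X + p)) := by
        have : (1 - p) ≠ 0 := hq.ne'
        have : X + p ≠ 0 := by positivity
        have e : (1 - p) + p * ((1 - p) * X⁻¹) = (1 - p) * (X + p) / X := by
          field_simp
        rw [e]
        field_simp
      have g2 : ((p' * ((1 - p') * X'⁻¹ * (-a'))) / ((1 - p') + p' * ((1 - p') * X'⁻¹))) =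
          -(p' * a' / (X' + p')) := by
        have : (1 - p') ≠ 0 := hq'.ne'
        have : X' + p' ≠ 0 := by positivity
        have e : (1 - p') + p' * ((1 - p') * X'⁻¹) = (1 - p') * (X' + p') / X' := by
          field_simp
        rw [e]
        field_simp
      rw [g1, g2]
      have : α * p * a / (X + p) ≤ p' * a' / (X' + p') := by
        rw [div_le_div_iff₀ (by positivity) (by positivity)]
        calc α * p * a * (X' + p') ≤ a' * p' * (X + p) := hmain
          _ = p' * a' * (X + p) := by ring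
      linarith
  have hexp1 : Real.exp (-a * 1) = 1 - p := by
    rw [ha, mul_one, neg_neg, Real.exp_log hq]
  have hexp1' : Real.exp (-a' * 1) = 1 - p' := by
    rw [ha', mul_one, neg_neg, Real.exp_log hq']
  have hD1 : D 1 = 0 := by
    show α * Real.log ((1 - p) + p * Real.exp (-a * 1)) -
      Real.log ((1 - p') + p' * Real.exp (-a' * 1)) = 0
    rw [hexp1, hexp1']
    have e1 : (1 - p) + p * (1 - p) = 1 - p ^ 2 := by ring
    have e2 : (1 - p') + p' * (1 - p') = 1 - p' ^ 2 := by ring
    rw [e1, e2, h.rel, Real.log_rpow (by nlinarith)]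
    ring
  have hDδ := hmono (show (1 : ℝ) ∈ Ici 1 from Set.mem_Ici.2 le_rfl) (show δ ∈ Ici 1 from hδ) hδ
  rw [hD1] at hDδ
  have hδe : (1 - p) ^ δ = Real.exp (-a * δ) := by
    rw [Real.rpow_def_of_pos hq, ha]; congr 1; ring
  have hδe' : (1 - p') ^ δ = Real.exp (-a' * δ) := by
    rw [Real.rpow_def_of_pos hq', ha']; congr 1; ring
  rw [hδe, hδe']
  have h5 : Real.log ((1 - p') + p' * Real.exp (-a' * δ)) ≤
      α * Real.log ((1 - p) + p * Real.exp (-a * δ)) := by
    have : D δ = α * Real.log ((1 - p) + p * Real.exp (-a * δ)) -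
      Real.log ((1 - p') + p' * Real.exp (-a' * δ)) := rfl
    rw [this] at hDδ
    linarith
  rw [← Real.log_rpow (hpos δ)] at h5
  exact (Real.log_le_log_iff (hpos' δ) (Real.rpow_pos_of_pos (hpos δ) _)).1 h5

lemma zeta_le_one {p p' α : ℝ} (h : Par p p' α) : (1 - p') / (1 - p) ^ α ≤ 1 := by
  have hp0 := h.p0
  have hq : 0 < 1 - p := by linarith [h.p1]
  rw [div_le_one (Real.rpow_pos_of_pos hq _)]
  have h1 : (1 + p) ^ α ≤ 1 + α * p :=
    rpow_one_add_le_one_add_mul_self (by linarith) h.α0.le h.α1.le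
  have h2 : (1 + p) ^ α ≤ 1 + p' := by linarith [h.αp_le]
  have h3 : (1 - p) ^ α * (1 + p) ^ α = (1 - p') * (1 + p') := by
    rw [← Real.mul_rpow hq.le (by linarith)]
    have : (1 - p) * (1 + p) = 1 - p ^ 2 := by ring
    rw [this, ← h.rel]
    ring
  have h4 : 0 < (1 - p) ^ α := Real.rpow_pos_of_pos hq _
  have h5 : 0 < 1 + p' := by linarith [h.p'0]
  have h6 : (1 - p') * (1 + p') ≤ (1 - p) ^ α * (1 + p') := by
    rw [← h3]
    exact mul_le_mul_of_nonneg_left h2 h4.le
  exact le_of_mul_le_mul_right h6 h5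

lemma F2 {p p' α : ℝ} (h : Par p p' α) (t : ℝ) (ht : 1 - p ≤ t) (ht1 : t ≤ 1) :
    (1 - p') + p' * ((1 - p') / (1 - p) ^ α) * t ^ α ≤ ((1 - p) + p * t) ^ α := by
  have hp0 := h.p0
  have hp1 := h.p1
  have hp'0 := h.p'0
  have hp'1 : p' < 1 := lt_trans h.lt h.p1
  have hq : 0 < 1 - p := by linarith
  have hq' : 0 < 1 - p' := by linarith
  have hα0 := h.α0
  have hα1 := h.α1
  set ζ := (1 - p') / (1 - p) ^ α with hζ
  have hζ0 : 0 < ζ := by rw [hζ]; positivity
  -- p' ζ (1+p)^(1-α) ≤ p
  have hkey : p' * ζ * (1 + p) ^ (1 - α) ≤ p := by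
    have h3 : (1 - p) ^ α * (1 + p) ^ α = (1 - p') * (1 + p') := by
      rw [← Real.mul_rpow hq.le (by linarith)]
      have : (1 - p) * (1 + p) = 1 - p ^ 2 := by ring
      rw [this, ← h.rel]
      ring
    have h4 : 0 < (1 - p) ^ α := Real.rpow_pos_of_pos hq _
    have h5 : 0 < (1 + p) ^ α := Real.rpow_pos_of_pos (by linarith) _
    have h6 : (1 + p) ^ (1 - α) * (1 + p) ^ α = 1 + p := by
      rw [← Real.rpow_add (by linarith)]
      simp
    have h7 : ζ = (1 + p) ^ α / (1 + p') := by
      rw [hζ, div_eq_div_iff h4.ne' (by linarith)]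
      rw [mul_comm ((1 + p) ^ α), h3]
    rw [h7]
    have h8 : p' * ((1 + p) ^ α / (1 + p')) * (1 + p) ^ (1 - α) =
        p' * ((1 + p) ^ (1 - α) * (1 + p) ^ α) / (1 + p') := by ring
    rw [h8, h6, div_le_iff₀ (by linarith)]
    nlinarith [h.lt]
  let g : ℝ → ℝ := fun x => ((1 - p) + p * x) ^ α - p' * ζ * x ^ α
  have hder : ∀ x : ℝ, 0 < x → HasDerivAt g
      ((p * α * ((1 - p) + p * x) ^ (α - 1)) - p' * ζ * (α * x ^ (α - 1))) x := by
    intro x hx
    have e1 : HasDerivAt (fun x : ℝ => (1 - p) + p * x) p x := by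
      simpa using ((hasDerivAt_id x).const_mul p).const_add (1 - p)
    have e2 : HasDerivAt (fun x : ℝ => ((1 - p) + p * x) ^ α)
        (p * α * ((1 - p) + p * x) ^ (α - 1)) x :=
      e1.rpow_const (Or.inl (by positivity))
    have e3 : HasDerivAt (fun x : ℝ => x ^ α) (α * x ^ (α - 1)) x :=
      Real.hasDerivAt_rpow_const (Or.inl hx.ne')
    exact e2.sub (e3.const_mul (p' * ζ))
  have hmono : MonotoneOn g (Icc (1 - p) 1) := by
    apply monotoneOn_of_deriv_nonneg (convex_Icc _ _)
    · exact fun x hx => (hder x (by linarith [hx.1])).continuousAt.continuousWithinAt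
    · intro x hx
      rw [interior_Icc] at hx
      exact (hder x (by linarith [hx.1])).differentiableAt.differentiableWithinAt
    · intro x hx
      rw [interior_Icc] at hx
      have hx0 : 0 < x := by linarith [hx.1]
      rw [(hder x hx0).deriv]
      set y := (1 - p) + p * x with hy
      have hy0 : 0 < y := by positivity
      -- y ≤ (1+p) x
      have hyx : y ≤ (1 + p) * x := by
        rw [hy]; nlinarith [hx.1]
      have h1 : y ^ (1 - α) ≤ (1 + p) ^ (1 - α) * x ^ (1 - α) := by
        rw [← Real.mul_rpow (by linarith) hx0.le]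
        exact Real.rpow_le_rpow hy0.le hyx (by linarith)
      have h2 : y ^ (α - 1) = (y ^ (1 - α))⁻¹ := by
        rw [← Real.rpow_neg hy0.le]; congr 1; ring
      have h3 : x ^ (α - 1) = (x ^ (1 - α))⁻¹ := by
        rw [← Real.rpow_neg hx0.le]; congr 1; ring
      rw [h2, h3]
      set Y := y ^ (1 - α) with hY
      set X := x ^ (1 - α) with hX
      have hY0 : 0 < Y := Real.rpow_pos_of_pos hy0 _
      have hX0 : 0 < X := Real.rpow_pos_of_pos hx0 _
      have h4 : p' * ζ * Y ≤ p * X := by
        calc p' * ζ * Y ≤ p' * ζ * ((1 + p) ^ (1 - α) * X) :=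
              mul_le_mul_of_nonneg_left h1 (by positivity)
          _ = (p' * ζ * (1 + p) ^ (1 - α)) * X := by ring
          _ ≤ p * X := mul_le_mul_of_nonneg_right hkey hX0.le
      have h5 : p' * ζ * X⁻¹ ≤ p * Y⁻¹ := by
        rw [← div_eq_mul_inv, ← div_eq_mul_inv, div_le_div_iff₀ hX0 hY0]
        exact h4
      have h6 := mul_le_mul_of_nonneg_left h5 hα0.le
      nlinarith
  have h1 := hmono (show (1 - p) ∈ Icc (1 - p) 1 from ⟨le_refl _, by linarith⟩)
    (show t ∈ Icc (1 - p) 1 from ⟨ht, ht1⟩) ht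
  have h2 : g (1 - p) = 1 - p' := by
    show ((1 - p) + p * (1 - p)) ^ α - p' * ζ * (1 - p) ^ α = 1 - p'
    have e1 : (1 - p) + p * (1 - p) = 1 - p ^ 2 := by ring
    have h4 : 0 < (1 - p) ^ α := Real.rpow_pos_of_pos hq _
    have e2 : p' * ζ * (1 - p) ^ α = p' * (1 - p') := by
      rw [hζ]; field_simp
    rw [e1, e2, ← h.rel]
    ring
  rw [h2] at h1
  have h3 : g t = ((1 - p) + p * t) ^ α - p' * ζ * t ^ α := rfl
  rw [h3] at h1
  linarith

/-- the inequality used in the induction step -/
lemma step_ineq {p p' α : ℝ} (h : Par p p' α) (d : ℕ) (t : ℝ) (ht : (1 - p) ^ d ≤ t)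
    (ht1 : t ≤ 1) :
    (1 - p') + p' * ((1 - p') / (1 - p) ^ α) ^ d * t ^ α ≤ ((1 - p) + p * t) ^ α := by
  have hp0 := h.p0
  have hp1 := h.p1
  have hp'0 := h.p'0
  have hp'1 : p' < 1 := lt_trans h.lt h.p1
  have hq : 0 < 1 - p := by linarith
  have hq' : 0 < 1 - p' := by linarith
  have hα0 := h.α0
  have hζ1 := zeta_le_one h
  have hζ0 : 0 < (1 - p') / (1 - p) ^ α := by positivity
  rcases Nat.eq_zero_or_pos d with rfl | hd
  · have : t = 1 := le_antisymm ht1 (by simpa using ht)
    subst this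
    simp
  · have ht0 : 0 < t := lt_of_lt_of_le (by positivity) ht
    rcases le_or_gt (1 - p) t with hc | hc
    · refine le_trans ?_ (F2 h t hc ht1)
      have h1 : ((1 - p') / (1 - p) ^ α) ^ d ≤ (1 - p') / (1 - p) ^ α := by
        calc ((1 - p') / (1 - p) ^ α) ^ d ≤ ((1 - p') / (1 - p) ^ α) ^ 1 :=
              pow_le_pow_of_le_one hζ0.le hζ1 hd
          _ = _ := pow_one _
      have h2 : 0 ≤ t ^ α := Real.rpow_nonneg ht0.le _
      have h3 := mul_le_mul_of_nonneg_right (mul_le_mul_of_nonneg_left h1 hp'0.le) h2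
      linarith
    · -- write t = (1-p)^δ
      set δ := Real.log t / Real.log (1 - p) with hδ
      have hlog : Real.log (1 - p) < 0 := Real.log_neg hq (by linarith)
      have htδ : t = (1 - p) ^ δ := by
        rw [Real.rpow_def_of_pos hq, hδ, mul_div_cancel₀ _ hlog.ne, Real.exp_log ht0]
      have hδ1 : 1 ≤ δ := by
        rw [hδ, one_le_div_of_neg hlog]
        exact Real.log_le_log ht0 hc.le
      have hδd : δ ≤ d := by
        rw [hδ, div_le_iff_of_neg hlog]
        have := Real.log_le_log (by positivity) ht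
        rw [Real.log_pow] at this
        linarith
      refine le_trans ?_ (le_of_le_of_eq (F1 h δ hδ1) (by rw [← htδ]))
      have h1 : ((1 - p') / (1 - p) ^ α) ^ d ≤ ((1 - p') / (1 - p) ^ α) ^ δ := by
        rw [← Real.rpow_natCast]
        exact Real.rpow_le_rpow_of_exponent_ge hζ0 hζ1 hδd
      have h2 : ((1 - p') / (1 - p) ^ α) ^ δ * t ^ α = (1 - p') ^ δ := by
        have h4 : 0 < (1 - p) ^ α := Real.rpow_pos_of_pos hq _
        rw [Real.div_rpow hq'.le h4.le, ← Real.rpow_mul hq.le]
        have h5 : t ^ α = (1 - p) ^ (α * δ) := by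
          rw [htδ, ← Real.rpow_mul hq.le, mul_comm]
        rw [h5]
        have h6 : 0 < (1 - p) ^ (α * δ) := Real.rpow_pos_of_pos hq _
        field_simp
      have h3 : 0 ≤ t ^ α := Real.rpow_nonneg ht0.le _
      have h4 := mul_le_mul_of_nonneg_left (mul_le_mul_of_nonneg_right h1 h3) hp'0.le
      rw [h2] at h4
      have h5 : p' * ((1 - p') / (1 - p) ^ α) ^ d * t ^ α =
        p' * (((1 - p') / (1 - p) ^ α) ^ d * t ^ α) := by ring
      rw [h5]
      linarith

end Pool.Agent.LibTGraph
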