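import Mathlib

namespace Pool.Agent.LibTGraph

open Finset

/-- `φ` respects the relation `rel` along the edges of `G` -/
def IsHom {V K : Type*} (G : SimpleGraph V) (rel : K → K → Prop) (φ : V → K) : Prop :=
  ∀ x y, G.Adj x y → rel (φ x) (φ y)

section

variable {V : Type*} [Fintype V] [DecidableEq V] (G : SimpleGraph V)

open scoped Classical in
/-- weighted homomorphism density -/
noncomputable def TT {K : Type*} [Fintype K] (rel : K → K → Prop) (w : K → ℝ) : ℝ :=
  ∑ φ : V → K, if IsHom G rel φ then ∏ x, w (φ x) else 0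

open scoped Classical in
/-- weighted edge density -/
noncomputable def DD {K : Type*} [Fintype K] (rel : K → K → Prop) (w : K → ℝ) : ℝ :=
  ∑ i, ∑ j, if rel i j then w i * w j else 0

open scoped Classical in
/-- push forward of the weights -/
noncomputable def push {K K' : Type*} [Fintype K] (c : K → K') (w : K → ℝ) (k' : K') : ℝ :=
  ∑ k, if c k = k' then w k else 0

lemma push_nonneg {K K' : Type*} [Fintype K] (c : K → K') (w : K → ℝ) (hw : ∀ k, 0 ≤ w k)
    (k' : K') : 0 ≤ push c w k' := by
  classical
  unfold push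
  apply Finset.sum_nonneg
  intro k _
  split_ifs
  · exact hw k
  · exact le_refl _

lemma push_sum {K K' : Type*} [Fintype K] [Fintype K'] (c : K → K') (w : K → ℝ) :
    ∑ k', push c w k' = ∑ k, w k := by
  classical
  unfold push
  rw [Finset.sum_comm]
  apply Finset.sum_congr rfl
  intro k _
  rw [Finset.sum_ite_eq]
  simp

lemma TT_push {K K' : Type*} [Fintype K] [Fintype K'] (c : K → K') (w : K → ℝ)
    (rel : K → K → Prop) (rel' : K' → K' → Prop)
    (hrel : ∀ i j, w i ≠ 0 → w j ≠ 0 → (rel i j ↔ rel' (c i) (c j))) :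
    TT G rel' (push c w) = TT G rel w := by
  classical
  unfold TT push
  have h1 : ∀ ψ : V → K', (if IsHom G rel' ψ then ∏ x, ∑ k, (if c k = ψ x then w k else 0)
      else 0) = ∑ φ : V → K, if ψ = c ∘ φ then (if IsHom G rel' ψ then ∏ x, w (φ x) else 0)
        else 0 := by
    intro ψ
    by_cases h : IsHom G rel' ψ
    · simp only [h, if_true]
      rw [Finset.prod_univ_sum, Fintype.piFinset_univ]
      apply Finset.sum_congr rfl
      intro φ _
      by_cases h2 : ψ = c ∘ φ
      · rw [if_pos h2]
        apply Finset.prod_congr rfl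
        intro x _
        rw [if_pos (by rw [h2]; rfl)]
      · rw [if_neg h2]
        obtain ⟨x, hx⟩ := Function.ne_iff.1 h2
        apply Finset.prod_eq_zero (Finset.mem_univ x)
        rw [if_neg]
        intro h3
        exact hx h3.symm
    · simp [h]
  rw [Finset.sum_congr rfl (fun ψ _ => h1 ψ), Finset.sum_comm]
  apply Finset.sum_congr rfl
  intro φ _
  rw [Finset.sum_ite_eq']
  simp only [Finset.mem_univ, if_true]
  by_cases hz : ∀ x, w (φ x) ≠ 0
  · have : IsHom G rel' (c ∘ φ) ↔ IsHom G rel φ := by
      unfold IsHom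
      constructor
      · intro h x y hxy
        exact (hrel _ _ (hz x) (hz y)).2 (h x y hxy)
      · intro h x y hxy
        exact (hrel _ _ (hz x) (hz y)).1 (h x y hxy)
    simp only [this]
  · push Not at hz
    obtain ⟨x, hx⟩ := hz
    have : ∏ x, w (φ x) = 0 := Finset.prod_eq_zero (Finset.mem_univ x) hx
    rw [this]
    simp

/-- the edge density as a homomorphism density -/
lemma DD_eq_TT {K : Type*} [Fintype K] (rel : K → K → Prop) (hsymm : ∀ i j, rel i j → rel j i)
    (w : K → ℝ) : DD rel w = TT (⊤ : SimpleGraph (Fin 2)) rel w := by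
  classical
  unfold DD TT
  rw [← Finset.sum_product']
  rw [Finset.univ_product_univ]
  apply Fintype.sum_equiv (finTwoArrowEquiv K).symm
  rintro ⟨i, j⟩
  have h1 : IsHom (⊤ : SimpleGraph (Fin 2)) rel ((finTwoArrowEquiv K).symm (i, j)) ↔ rel i j := by
    unfold IsHom
    constructor
    · intro h
      exact h 0 1 (by simp)
    · intro h x y hxy
      rw [SimpleGraph.top_adj] at hxy
      fin_cases x <;> fin_cases y
      · exact absurd rfl hxy
      · exact h
      · exact hsymm _ _ h
      · exact absurd rfl hxy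
  simp only [h1]
  congr 1
  rw [Fin.prod_univ_two]
  rfl

lemma DD_push {K K' : Type*} [Fintype K] [Fintype K'] (c : K → K') (w : K → ℝ)
    (rel : K → K → Prop) (rel' : K' → K' → Prop) (hs : ∀ i j, rel i j → rel j i)
    (hs' : ∀ i j, rel' i j → rel' j i)
    (hrel : ∀ i j, w i ≠ 0 → w j ≠ 0 → (rel i j ↔ rel' (c i) (c j))) :
    DD rel' (push c w) = DD rel w := by
  rw [DD_eq_TT rel' hs', DD_eq_TT rel hs]
  exact TT_push _ c w rel rel' hrel

end

/-- the canonical threshold structure -/
def can (M : ℕ) (i j : Fin M) : Prop := (i : ℕ) + (j : ℕ) < M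

lemma can_symm (M : ℕ) (i j : Fin M) (h : can M i j) : can M j i := by
  unfold can at *
  omega

/-- points of the simplex -/
structure Simp {K : Type*} [Fintype K] (w : K → ℝ) : Prop where
  nonneg : ∀ k, 0 ≤ w k
  sum : ∑ k, w k = 1

lemma Simp.push {K K' : Type*} [Fintype K] [Fintype K'] {w : K → ℝ} (h : Simp w) (c : K → K') :
    Simp (LibTGraph.push c w) :=
  ⟨fun k' => push_nonneg c w h.nonneg k', by rw [push_sum]; exact h.sum⟩

section

variable {V : Type*} [Fintype V] [DecidableEq V] (G : SimpleGraph V)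

/-- a class of weight zero (not the first one) can be dropped -/
lemma drop (M k : ℕ) (hk : 1 ≤ k) (hkM : k < M) (w : Fin M → ℝ) (hw : Simp w)
    (h0 : w ⟨k, hkM⟩ = 0) :
    ∃ M' : ℕ, M' < M ∧ ∃ w' : Fin M' → ℝ, Simp w' ∧ DD (can M') w' = DD (can M) w ∧
      TT G (can M') w' = TT G (can M) w := by
  have hne : ∀ i : Fin M, w i ≠ 0 → (i : ℕ) ≠ k := by
    intro i hi h
    apply hi
    have : i = ⟨k, hkM⟩ := Fin.ext h
    rw [this, h0]
  have main : ∀ (M' : ℕ) (c : Fin M → Fin M'), M' < M →
      (∀ i j : Fin M, (i : ℕ) ≠ k → (j : ℕ) ≠ k → (can M i j ↔ can M' (c i) (c j))) →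
      ∃ M' : ℕ, M' < M ∧ ∃ w' : Fin M' → ℝ, Simp w' ∧ DD (can M') w' = DD (can M) w ∧
      TT G (can M') w' = TT G (can M) w := by
    intro M' c hM' hc
    refine ⟨M', hM', push c w, hw.push c, ?_, ?_⟩
    · exact DD_push c w (can M) (can M') (can_symm M) (can_symm M')
        (fun i j hi hj => hc i j (hne i hi) (hne j hj))
    · exact TT_push G c w (can M) (can M') (fun i j hi hj => hc i j (hne i hi) (hne j hj))
  by_cases hA : 2 * k + 1 = M ∨ 2 * k = M
  · refine main (M - 1) (fun i => ⟨if (i : ℕ) < k then (i : ℕ) else (i : ℕ) - 1, ?_⟩)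
      (by omega) ?_
    · have := i.2
      split_ifs <;> omega
    · intro i j hi hj
      unfold can
      simp only
      split_ifs <;> omega
  · by_cases hB : 2 * k + 1 < M
    · refine main (M - 2) (fun i => ⟨if (i : ℕ) < k then (i : ℕ) else
        if (i : ℕ) < M - k then (i : ℕ) - 1 else (i : ℕ) - 2, ?_⟩) (by omega) ?_
      · have := i.2
        split_ifs <;> omega
      · intro i j hi hj
        unfold can
        simp only
        split_ifs <;> omega
    · refine main (M - 2) (fun i => ⟨if (i : ℕ) < M - k then (i : ℕ) else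
        if (i : ℕ) < k then (i : ℕ) - 1 else (i : ℕ) - 2, ?_⟩) (by omega) ?_
      · have := i.2
        split_ifs <;> omega
      · intro i j hi hj
        unfold can
        simp only
        split_ifs <;> omega

end

end Pool.Agent.LibTGraph
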