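import Pool.Agent.LibTGraph.StepA

namespace Pool.Agent.LibTGraph

open Finset Filter Topology

section

lemma err_tendsto (C : ℝ) :
    Tendsto (fun N : ℕ => √((√(C * N) + 1) / N)) atTop (𝓝 0) := by
  have h1 : Tendsto (fun N : ℕ => √(N : ℝ)) atTop atTop :=
    Real.tendsto_sqrt_atTop.comp tendsto_natCast_atTop_atTop
  have h2 : Tendsto (fun N : ℕ => (√(N : ℝ))⁻¹) atTop (𝓝 0) := tendsto_inv_atTop_zero.comp h1
  have h3 : Tendsto (fun N : ℕ => ((N : ℝ))⁻¹) atTop (𝓝 0) :=
    tendsto_inv_atTop_zero.comp tendsto_natCast_atTop_atTop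
  have h4 : Tendsto (fun N : ℕ => √|C| * (√(N : ℝ))⁻¹ + ((N : ℝ))⁻¹) atTop (𝓝 0) := by
    have := (h2.const_mul (√|C|)).add h3
    simpa using this
  have h5 : Tendsto (fun N : ℕ => (√(C * N) + 1) / N) atTop (𝓝 0) := by
    apply squeeze_zero (fun N => by positivity) _ h4
    intro N
    rw [add_div, one_div]
    have e1 : √(C * N) ≤ √|C| * √(N : ℝ) := by
      rw [← Real.sqrt_mul (abs_nonneg C)]
      apply Real.sqrt_le_sqrt
      apply mul_le_mul_of_nonneg_right (le_abs_self C) (Nat.cast_nonneg N)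
    have e2 : √(C * N) / N ≤ √|C| * (√(N : ℝ))⁻¹ := by
      calc √(C * N) / N ≤ √|C| * √(N : ℝ) / N := by gcongr
        _ = √|C| * (√(N : ℝ) / N) := by ring
        _ = √|C| * (√(N : ℝ))⁻¹ := by rw [Real.sqrt_div_self]
    linarith
  have h6 := (Real.continuous_sqrt.tendsto 0).comp h5
  rw [Real.sqrt_zero] at h6
  exact h6

variable {V : Type*} [Fintype V] [DecidableEq V] (G : SimpleGraph V)

/-- the blow-up projection -/
def bl (n m : ℕ) (x : Fin (n * m)) : Fin n := (finProdFinEquiv.symm x).1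

lemma push_apply {K K' : Type*} [Fintype K] [DecidableEq K'] (c : K → K') (w : K → ℝ) (k' : K') :
    push c w k' = ∑ k, if c k = k' then w k else 0 := by
  unfold push
  apply sum_congr rfl
  intro k _
  by_cases h : c k = k'
  · rw [if_pos h, if_pos h]
  · rw [if_neg h, if_neg h]

lemma push_bl {n m : ℕ} (hm : 0 < m) : push (bl n m) (uw (n * m)) = uw n := by
  funext k
  rw [push_apply]
  rw [← Equiv.sum_comp (finProdFinEquiv (m := n) (n := m))
    (fun x => if bl n m x = k then uw (n * m) x else 0)]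
  rw [← univ_product_univ, sum_product]
  unfold bl uw
  simp only [Equiv.symm_apply_apply]
  rw [sum_congr rfl (fun a _ => sum_const _)]
  have hm' : (m : ℝ) ≠ 0 := by exact_mod_cast hm.ne'
  simp only [card_univ, Fintype.card_fin, nsmul_eq_mul, mul_ite, mul_zero]
  rw [sum_ite_eq' univ k]
  simp only [mem_univ, if_true]
  push_cast
  by_cases hn : (n : ℝ) = 0
  · simp [hn]
  · field_simp

lemma upper_approx {n : ℕ} (hn : 0 < n) (H : SimpleGraph (Fin n)) {δ : ℝ} (hδ : 0 < δ) :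
    ∃ w : Fin 3 → ℝ, Simp w ∧ |DD (can 3) w - DD H.Adj (uw n)| ≤ δ ∧
      TT G H.Adj (uw n) ≤ TT G (can 3) w + δ := by
  set C : ℝ := 2 * (Fintype.card V : ℝ) ^ 2 / (δ / 2) with hC
  have h1 := err_tendsto C
  set η : ℝ := δ / (4 * ((Fintype.card V : ℝ) ^ 2 + 1)) with hη
  have hη0 : 0 < η := by positivity
  have h2 := (h1.eventually (gt_mem_nhds hη0)).and (eventually_gt_atTop 0)
  obtain ⟨m, hm⟩ := (h2.filter_mono (tendsto_id)).exists_forall_of_atTop
  -- take a large multiple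
  have hm1 := hm (n * (m + 1)) (by
    calc m ≤ m + 1 := Nat.le_succ m
      _ ≤ n * (m + 1) := Nat.le_mul_of_pos_left _ hn)
  obtain ⟨hm2, hm3⟩ := hm1
  set A0 : SimpleGraph (Fin (n * (m + 1))) := H.comap (bl n (m + 1)) with hA0
  have hadj : ∀ i j, A0.Adj i j ↔ H.Adj (bl n (m + 1) i) (bl n (m + 1) j) := by
    intro i j
    rw [hA0, SimpleGraph.comap_adj]
  have hT : TT G H.Adj (uw n) = TT G A0.Adj (uw (n * (m + 1))) := by
    rw [← push_bl (n := n) (m := m + 1) (Nat.succ_pos m)]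
    exact TT_push G _ _ A0.Adj H.Adj (fun i j _ _ => hadj i j)
  have hD : DD H.Adj (uw n) = DD A0.Adj (uw (n * (m + 1))) := by
    rw [← push_bl (n := n) (m := m + 1) (Nat.succ_pos m)]
    exact DD_push _ _ A0.Adj H.Adj (fun _ _ h => h.symm) (fun _ _ h => h.symm)
      (fun i j _ _ => hadj i j)
  obtain ⟨w, hw, hw1, hw2⟩ := stepA G hm3 (half_pos hδ) A0
  have e0 : 2 * (Fintype.card V : ℝ) ^ 2 * ((n * (m + 1) : ℕ) : ℝ) / (δ / 2) =
      C * ((n * (m + 1) : ℕ) : ℝ) := by
    rw [hC]; ring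
  rw [e0] at hw1 hw2
  have e1 : η * (4 * ((Fintype.card V : ℝ) ^ 2 + 1)) = δ := by
    rw [hη]; field_simp
  set E := √((√(C * ((n * (m + 1) : ℕ) : ℝ)) + 1) / ((n * (m + 1) : ℕ) : ℝ)) with hE
  have hv : 0 ≤ (Fintype.card V : ℝ) ^ 2 := by positivity
  refine ⟨w, hw, ?_, ?_⟩
  · rw [hD]
    refine hw1.trans ?_
    nlinarith
  · rw [hT]
    have e2 : (Fintype.card V : ℝ) ^ 2 * E ≤ (Fintype.card V : ℝ) ^ 2 * η :=
      mul_le_mul_of_nonneg_left hm2.le hv
    nlinarith

lemma continuous_DD {K : Type*} [Fintype K] (rel : K → K → Prop) :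
    Continuous (fun w : K → ℝ => DD rel w) := by
  classical
  unfold DD
  apply continuous_finsetSum
  intro i _
  apply continuous_finsetSum
  intro j _
  split_ifs
  · fun_prop
  · fun_prop

lemma continuous_TT {K : Type*} [Fintype K] (rel : K → K → Prop) :
    Continuous (fun w : K → ℝ => TT G rel w) := by
  classical
  unfold TT
  apply continuous_finsetSum
  intro φ _
  split_ifs
  · apply continuous_finsetProd
    intro x _
    fun_prop
  · fun_prop

/-- the region below the three-class curves -/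
def region : Set (ℝ × ℝ) :=
  {p | ∃ w : Fin 3 → ℝ, Simp w ∧ DD (can 3) w = p.1 ∧ p.2 ≤ TT G (can 3) w}

lemma simp_compact : IsCompact ({w : Fin 3 → ℝ | Simp w}) := by
  have h : {w : Fin 3 → ℝ | Simp w} = stdSimplex ℝ (Fin 3) := by
    ext w
    constructor
    · intro h
      exact ⟨h.nonneg, h.sum⟩
    · intro h
      exact ⟨h.1, h.2⟩
  rw [h]
  exact isCompact_stdSimplex ℝ (Fin 3)

lemma region_closed : IsClosed (region G) := by
  have : CompactSpace ({w : Fin 3 → ℝ | Simp w}) := isCompact_iff_compactSpace.1 simp_compact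
  have hc : IsClosed {x : ({w : Fin 3 → ℝ | Simp w}) × (ℝ × ℝ) |
      DD (can 3) (x.1 : Fin 3 → ℝ) = x.2.1 ∧ x.2.2 ≤ TT G (can 3) (x.1 : Fin 3 → ℝ)} := by
    have c1 : Continuous (fun x : ({w : Fin 3 → ℝ | Simp w}) × (ℝ × ℝ) =>
        DD (can 3) (x.1 : Fin 3 → ℝ)) :=
      (continuous_DD (can 3)).comp (continuous_subtype_val.comp continuous_fst)
    have c2 : Continuous (fun x : ({w : Fin 3 → ℝ | Simp w}) × (ℝ × ℝ) =>
        TT G (can 3) (x.1 : Fin 3 → ℝ)) :=
      (continuous_TT G (can 3)).comp (continuous_subtype_val.comp continuous_fst)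
    have c3 : Continuous (fun x : ({w : Fin 3 → ℝ | Simp w}) × (ℝ × ℝ) => x.2.1) := by fun_prop
    have c4 : Continuous (fun x : ({w : Fin 3 → ℝ | Simp w}) × (ℝ × ℝ) => x.2.2) := by fun_prop
    exact (isClosed_eq c1 c3).inter (isClosed_le c4 c2)
  have := isClosedMap_snd_of_compactSpace _ hc
  convert this using 1
  ext p
  constructor
  · rintro ⟨w, hw, h1, h2⟩
    exact ⟨(⟨w, hw⟩, p), ⟨h1, h2⟩, rfl⟩
  · rintro ⟨⟨⟨w, hw⟩, q⟩, ⟨h1, h2⟩, rfl⟩
    exact ⟨w, hw, h1, h2⟩

/-- the points of graphs lie in the region -/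
theorem mem_region {n : ℕ} (hn : 0 < n) (H : SimpleGraph (Fin n)) :
    (DD H.Adj (uw n), TT G H.Adj (uw n)) ∈ region G := by
  rw [← (region_closed G).closure_eq, Metric.mem_closure_iff]
  intro δ hδ
  obtain ⟨w, hw, h1, h2⟩ := upper_approx G hn H (half_pos hδ)
  refine ⟨(DD (can 3) w, TT G H.Adj (uw n) - δ / 2), ⟨w, hw, rfl, by simp only; linarith⟩, ?_⟩
  rw [Prod.dist_eq]
  apply max_lt
  · rw [Real.dist_eq, abs_sub_comm]
    linarith
  · rw [Real.dist_eq]
    simp only [sub_sub_cancel]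
    rw [abs_of_pos (half_pos hδ)]
    linarith

/-- class function of the explicit three-class graphs -/
def cl (n a b : ℕ) (x : Fin n) : Fin 3 :=
  if (x : ℕ) < a then 0 else if (x : ℕ) < a + b then 1 else 2

/-- the explicit three-class graphs -/
def tgr (n a b : ℕ) : SimpleGraph (Fin n) where
  Adj x y := x ≠ y ∧ can 3 (cl n a b x) (cl n a b y)
  symm := ⟨fun _ _ h => ⟨h.1.symm, can_symm 3 _ _ h.2⟩⟩
  loopless := ⟨fun _ h => h.1 rfl⟩

lemma push_cl (n a b : ℕ) (hab : a + b ≤ n) (hn : 0 < n) :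
    push (cl n a b) (uw n) = ![(a : ℝ) / n, (b : ℝ) / n, 1 - (a : ℝ) / n - (b : ℝ) / n] := by
  classical
  have hn0 : (n : ℝ) ≠ 0 := by exact_mod_cast hn.ne'
  have hsum := ((uw_simp hn).push (cl n a b)).sum
  rw [Fin.sum_univ_three] at hsum
  have h0 : push (cl n a b) (uw n) 0 = (a : ℝ) / n := by
    rw [push_apply]
    unfold uw
    have e1 : ∀ x : Fin n, (if cl n a b x = 0 then (1 : ℝ) / n else 0) =
        (fun i : ℕ => if i < a then (1 : ℝ) / n else 0) x := by
      intro x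
      have : cl n a b x = 0 ↔ (x : ℕ) < a := by
        unfold cl
        split_ifs with c1 c2
        · simp [c1]
        · simp [c1]
        · simp [c1]
      simp only [this]
    rw [sum_congr rfl (fun x _ => e1 x), Fin.sum_univ_eq_sum_range
      (fun i : ℕ => if i < a then (1 : ℝ) / n else 0) n, ← sum_filter, sum_const, nsmul_eq_mul]
    have e2 : (range n).filter (fun i => i < a) = range a := by
      ext i
      simp only [mem_filter, mem_range]
      omega
    rw [e2, card_range]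
    ring
  have h1 : push (cl n a b) (uw n) 1 = (b : ℝ) / n := by
    rw [push_apply]
    unfold uw
    have e1 : ∀ x : Fin n, (if cl n a b x = 1 then (1 : ℝ) / n else 0) =
        (fun i : ℕ => if a ≤ i ∧ i < a + b then (1 : ℝ) / n else 0) x := by
      intro x
      have : cl n a b x = 1 ↔ a ≤ (x : ℕ) ∧ (x : ℕ) < a + b := by
        unfold cl
        split_ifs with c1 c2
        · simp only [Fin.isValue, zero_ne_one, false_iff, not_and, not_lt]
          omega
        · simp only [Fin.isValue, true_iff]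
          omega
        · simp only [Fin.isValue, Fin.reduceEq, false_iff, not_and, not_lt]
          omega
      simp only [this]
    rw [sum_congr rfl (fun x _ => e1 x), Fin.sum_univ_eq_sum_range
      (fun i : ℕ => if a ≤ i ∧ i < a + b then (1 : ℝ) / n else 0) n, ← sum_filter, sum_const,
      nsmul_eq_mul]
    have e2 : (range n).filter (fun i => a ≤ i ∧ i < a + b) = Ico a (a + b) := by
      ext i
      simp only [mem_filter, mem_range, mem_Ico]
      omega
    rw [e2, Nat.card_Ico]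
    have e3 : a + b - a = b := by omega
    rw [e3]
    ring
  funext k
  fin_cases k
  · exact h0
  · exact h1
  · show push (cl n a b) (uw n) 2 = 1 - (a : ℝ) / n - (b : ℝ) / n
    rw [h0, h1] at hsum
    linarith

lemma tgr_TT (n a b : ℕ) (hab : a + b ≤ n) (hn : 0 < n) :
    |TT G (tgr n a b).Adj (uw n) -
      TT G (can 3) ![(a : ℝ) / n, (b : ℝ) / n, 1 - (a : ℝ) / n - (b : ℝ) / n]| ≤
      (Fintype.card V : ℝ) ^ 2 / n := by
  classical
  have hn0 : (0 : ℝ) < n := by exact_mod_cast hn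
  rw [← push_cl n a b hab hn]
  have h1 : TT G (can 3) (push (cl n a b) (uw n)) =
      TT G (fun x y => can 3 (cl n a b x) (cl n a b y)) (uw n) :=
    TT_push G (cl n a b) (uw n) (fun x y => can 3 (cl n a b x) (cl n a b y)) (can 3)
      (fun i j _ _ => Iff.rfl)
  rw [h1]
  have h2 := TT_uw_le G hn (tgr n a b).Adj (fun x y => can 3 (cl n a b x) (cl n a b y))
  have h3 := TT_uw_le G hn (fun x y => can 3 (cl n a b x) (cl n a b y)) (tgr n a b).Adj
  have e2 : (univ : Finset (Fin n × Fin n)).filter (fun p => (tgr n a b).Adj p.1 p.2 ∧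
      ¬ can 3 (cl n a b p.1) (cl n a b p.2)) = ∅ := by
    apply filter_false_of_mem
    intro p _ h
    exact h.2 h.1.2
  have e3 : (((univ : Finset (Fin n × Fin n)).filter (fun p =>
      can 3 (cl n a b p.1) (cl n a b p.2) ∧ ¬ (tgr n a b).Adj p.1 p.2)).card : ℝ) ≤ n := by
    have : (univ : Finset (Fin n × Fin n)).filter (fun p =>
      can 3 (cl n a b p.1) (cl n a b p.2) ∧ ¬ (tgr n a b).Adj p.1 p.2) ⊆
        (univ : Finset (Fin n)).image (fun x => (x, x)) := by
      intro p hp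
      rw [mem_filter] at hp
      rw [mem_image]
      refine ⟨p.1, mem_univ _, ?_⟩
      have : p.1 = p.2 := by
        by_contra hne
        exact hp.2.2 ⟨hne, hp.2.1⟩
      exact Prod.ext rfl this
    have h4 := (card_le_card this).trans card_image_le
    rw [card_univ, Fintype.card_fin] at h4
    exact_mod_cast h4
  rw [e2] at h2
  simp only [card_empty, Nat.cast_zero, mul_zero, zero_div, add_zero] at h2
  have h4 : (Fintype.card V : ℝ) ^ 2 * (((univ : Finset (Fin n × Fin n)).filter (fun p =>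
      can 3 (cl n a b p.1) (cl n a b p.2) ∧ ¬ (tgr n a b).Adj p.1 p.2)).card : ℝ) / (n : ℝ) ^ 2 ≤
      (Fintype.card V : ℝ) ^ 2 / n := by
    rw [div_le_div_iff₀ (by positivity) hn0]
    calc _ ≤ (Fintype.card V : ℝ) ^ 2 * n * n := by gcongr
      _ = _ := by ring
  have h5 : 0 ≤ (Fintype.card V : ℝ) ^ 2 / n := by positivity
  rw [abs_le]
  constructor
  · linarith
  · linarith

lemma tgr_DD (n a b : ℕ) (hab : a + b ≤ n) (hn : 0 < n) :
    |DD (tgr n a b).Adj (uw n) -
      DD (can 3) ![(a : ℝ) / n, (b : ℝ) / n, 1 - (a : ℝ) / n - (b : ℝ) / n]| ≤ 4 / n := by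
  have h := tgr_TT (⊤ : SimpleGraph (Fin 2)) n a b hab hn
  rw [← DD_eq_TT (can 3) (can_symm 3), ← DD_eq_TT _ (fun _ _ h => h.symm)] at h
  refine h.trans (le_of_eq ?_)
  rw [Fintype.card_fin]
  norm_num

/-- the three-class points are limits of points of graphs -/
theorem mem_profile (w : Fin 3 → ℝ) (hw : Simp w) :
    (DD (can 3) w, TT G (can 3) w) ∈
      closure {p : ℝ × ℝ | ∃ n : ℕ, 0 < n ∧ ∃ H : SimpleGraph (Fin n),
        p = (DD H.Adj (uw n), TT G H.Adj (uw n))} := by
  have hsum := hw.sum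
  rw [Fin.sum_univ_three] at hsum
  have hw0 := hw.nonneg 0
  have hw1 := hw.nonneg 1
  have hw2 := hw.nonneg 2
  set a : ℕ → ℕ := fun n => ⌊w 0 * n⌋₊ with ha
  set b : ℕ → ℕ := fun n => ⌊w 1 * n⌋₊ with hb
  have hab : ∀ n, a n + b n ≤ n := by
    intro n
    have h1 : (a n : ℝ) ≤ w 0 * n := Nat.floor_le (by positivity)
    have h2 : (b n : ℝ) ≤ w 1 * n := Nat.floor_le (by positivity)
    have h3 : (a n : ℝ) + b n ≤ n := by
      have : (w 0 + w 1) * (n : ℝ) ≤ 1 * n := by
        apply mul_le_mul_of_nonneg_right _ (Nat.cast_nonneg n)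
        linarith
      linarith
    exact_mod_cast h3
  have hta : Tendsto (fun n : ℕ => (a n : ℝ) / n) atTop (𝓝 (w 0)) :=
    (tendsto_nat_floor_mul_div_atTop hw0).comp tendsto_natCast_atTop_atTop
  have htb : Tendsto (fun n : ℕ => (b n : ℝ) / n) atTop (𝓝 (w 1)) :=
    (tendsto_nat_floor_mul_div_atTop hw1).comp tendsto_natCast_atTop_atTop
  have htw : Tendsto (fun n : ℕ => (![(a n : ℝ) / n, (b n : ℝ) / n,
      1 - (a n : ℝ) / n - (b n : ℝ) / n] : Fin 3 → ℝ)) atTop (𝓝 w) := by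
    rw [tendsto_pi_nhds]
    intro k
    fin_cases k
    · exact hta
    · exact htb
    · show Tendsto (fun n : ℕ => 1 - (a n : ℝ) / n - (b n : ℝ) / n) atTop (𝓝 (w 2))
      have h := ((tendsto_const_nhds (x := (1 : ℝ))).sub hta).sub htb
      have e : 1 - w 0 - w 1 = w 2 := by linarith
      rw [e] at h
      exact h
  have hT1 : Tendsto (fun n : ℕ => TT G (can 3) ![(a n : ℝ) / n, (b n : ℝ) / n,
      1 - (a n : ℝ) / n - (b n : ℝ) / n]) atTop (𝓝 (TT G (can 3) w)) :=
    ((continuous_TT G (can 3)).tendsto w).comp htw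
  have hD1 : Tendsto (fun n : ℕ => DD (can 3) ![(a n : ℝ) / n, (b n : ℝ) / n,
      1 - (a n : ℝ) / n - (b n : ℝ) / n]) atTop (𝓝 (DD (can 3) w)) :=
    ((continuous_DD (can 3)).tendsto w).comp htw
  have hinv : ∀ c : ℝ, Tendsto (fun n : ℕ => c / (n : ℝ)) atTop (𝓝 0) := fun c =>
    tendsto_const_nhds.div_atTop tendsto_natCast_atTop_atTop
  have hT2 : Tendsto (fun n : ℕ => TT G (tgr n (a n) (b n)).Adj (uw n)) atTop
      (𝓝 (TT G (can 3) w)) := by
    have h1 : Tendsto (fun n : ℕ => TT G (tgr n (a n) (b n)).Adj (uw n) -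
        TT G (can 3) ![(a n : ℝ) / n, (b n : ℝ) / n, 1 - (a n : ℝ) / n - (b n : ℝ) / n]) atTop
        (𝓝 0) := by
      apply squeeze_zero_norm' _ (hinv ((Fintype.card V : ℝ) ^ 2))
      filter_upwards [eventually_gt_atTop 0] with n hn
      rw [Real.norm_eq_abs]
      exact tgr_TT G n (a n) (b n) (hab n) hn
    have h2 := h1.add hT1
    simpa using h2
  have hD2 : Tendsto (fun n : ℕ => DD (tgr n (a n) (b n)).Adj (uw n)) atTop
      (𝓝 (DD (can 3) w)) := by
    have h1 : Tendsto (fun n : ℕ => DD (tgr n (a n) (b n)).Adj (uw n) -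
        DD (can 3) ![(a n : ℝ) / n, (b n : ℝ) / n, 1 - (a n : ℝ) / n - (b n : ℝ) / n]) atTop
        (𝓝 0) := by
      apply squeeze_zero_norm' _ (hinv 4)
      filter_upwards [eventually_gt_atTop 0] with n hn
      rw [Real.norm_eq_abs]
      exact tgr_DD n (a n) (b n) (hab n) hn
    have h2 := h1.add hD1
    simpa using h2
  apply mem_closure_of_tendsto (hD2.prodMk_nhds hT2)
  filter_upwards [eventually_gt_atTop 0] with n hn
  exact ⟨n, hn, tgr n (a n) (b n), rfl⟩

end

end Pool.Agent.LibTGraph
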