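import Pool.Agent.LibTGraph.Basic

namespace Pool.Agent.LibTGraph

open Finset

section

variable {V : Type*} [Fintype V] [DecidableEq V]

/-- the number of maps with a prescribed pair of values -/
lemma card_pair_one {N : ℕ} {x y : V} (hxy : x ≠ y) (a b : Fin N) :
    ((univ : Finset (V → Fin N)).filter (fun φ => φ x = a ∧ φ y = b)).card * N ^ 2 =
      N ^ (Fintype.card V) := by
  have h1 : (univ : Finset (V → Fin N)).filter (fun φ => φ x = a ∧ φ y = b) =
      Fintype.piFinset (fun z => if z = x then {a} else if z = y then {b} else univ) := by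
    ext φ
    rw [mem_filter, Fintype.mem_piFinset]
    constructor
    · rintro ⟨_, h1, h2⟩ z
      split_ifs with c1 c2
      · rw [c1, h1]; exact mem_singleton_self _
      · rw [c2, h2]; exact mem_singleton_self _
      · exact mem_univ _
    · intro h
      have hx := h x
      have hy := h y
      rw [if_pos rfl, mem_singleton] at hx
      rw [if_neg hxy.symm, if_pos rfl, mem_singleton] at hy
      exact ⟨mem_univ _, hx, hy⟩
  rw [h1, Fintype.card_piFinset]
  have h2 : N ^ 2 = ∏ z : V, ((if z = x then N else 1) * (if z = y then N else 1)) := by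
    rw [prod_mul_distrib, prod_ite_eq', prod_ite_eq', if_pos (mem_univ _), if_pos (mem_univ _)]
    ring
  rw [h2, ← prod_mul_distrib]
  have h3 : N ^ (Fintype.card V) = ∏ _z : V, N := by
    rw [prod_const, card_univ]
  rw [h3]
  apply prod_congr rfl
  intro z _
  by_cases c1 : z = x
  · have c2 : z ≠ y := fun h => hxy (c1.symm.trans h)
    simp [c1, hxy]
  · by_cases c2 : z = y
    · simp [c2, hxy.symm]
    · simp [c1, c2]

lemma card_pair {N : ℕ} {x y : V} (hxy : x ≠ y) (R : Finset (Fin N × Fin N)) :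
    ((univ : Finset (V → Fin N)).filter (fun φ => (φ x, φ y) ∈ R)).card * N ^ 2 =
      R.card * N ^ (Fintype.card V) := by
  rw [card_eq_sum_card_fiberwise (f := fun φ : V → Fin N => (φ x, φ y)) (t := R)]
  · rw [sum_mul, card_eq_sum_ones, sum_mul]
    apply sum_congr rfl
    rintro ⟨a, b⟩ hab
    rw [one_mul, ← card_pair_one hxy a b]
    congr 2
    ext φ
    simp only [mem_filter, mem_univ, true_and, Prod.mk.injEq]
    constructor
    · rintro ⟨_, h⟩
      exact h
    · rintro ⟨h1, h2⟩
      exact ⟨by rw [h1, h2]; exact hab, h1, h2⟩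
  · intro φ hφ
    simp only [coe_filter, mem_univ, true_and, Set.mem_ofPred_eq] at hφ
    exact hφ

open scoped Classical in
/-- union bound -/
lemma card_bad {N : ℕ} (R : Finset (Fin N × Fin N)) :
    ((univ : Finset (V → Fin N)).filter (fun φ => ∃ x y, x ≠ y ∧ (φ x, φ y) ∈ R)).card * N ^ 2 ≤
      (Fintype.card V) ^ 2 * (R.card * N ^ (Fintype.card V)) := by
  have h1 : (univ : Finset (V → Fin N)).filter (fun φ => ∃ x y, x ≠ y ∧ (φ x, φ y) ∈ R) ⊆
      ((univ : Finset (V × V)).filter (fun p => p.1 ≠ p.2)).biUnion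
        (fun p => (univ : Finset (V → Fin N)).filter (fun φ => (φ p.1, φ p.2) ∈ R)) := by
    intro φ hφ
    rw [mem_filter] at hφ
    obtain ⟨_, x, y, hxy, h⟩ := hφ
    rw [mem_biUnion]
    exact ⟨(x, y), by simpa using hxy, by simpa using h⟩
  have h2 := (card_le_card h1).trans card_biUnion_le
  calc _ ≤ (∑ p ∈ (univ : Finset (V × V)).filter (fun p => p.1 ≠ p.2),
        ((univ : Finset (V → Fin N)).filter (fun φ => (φ p.1, φ p.2) ∈ R)).card) * N ^ 2 :=
        Nat.mul_le_mul_right _ h2
    _ = ∑ p ∈ (univ : Finset (V × V)).filter (fun p => p.1 ≠ p.2),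
        R.card * N ^ (Fintype.card V) := by
        rw [sum_mul]
        apply sum_congr rfl
        intro p hp
        exact card_pair (mem_filter.1 hp).2 R
    _ = ((univ : Finset (V × V)).filter (fun p => p.1 ≠ p.2)).card *
        (R.card * N ^ (Fintype.card V)) := by rw [sum_const, smul_eq_mul]
    _ ≤ _ := by
        apply Nat.mul_le_mul_right
        refine (card_filter_le _ _).trans ?_
        rw [card_univ, Fintype.card_prod, sq]

/-- the uniform weights -/
noncomputable def uw (N : ℕ) : Fin N → ℝ := fun _ => 1 / N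

variable (G : SimpleGraph V)

open scoped Classical in
/-- the homomorphisms -/
noncomputable def homs {N : ℕ} (rel : Fin N → Fin N → Prop) : Finset (V → Fin N) :=
  univ.filter (fun φ => IsHom G rel φ)

lemma TT_uw {N : ℕ} (rel : Fin N → Fin N → Prop) :
    TT G rel (uw N) = ((homs G rel).card : ℝ) / (N : ℝ) ^ (Fintype.card V) := by
  classical
  unfold TT uw homs
  rw [card_filter]
  push_cast
  rw [sum_div]
  apply sum_congr rfl
  intro φ _
  split_ifs
  · rw [prod_const, card_univ, div_pow, one_pow]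
  · simp

lemma DD_uw {N : ℕ} (rel : Fin N → Fin N → Prop) [DecidableRel rel] :
    DD rel (uw N) = (∑ i, ∑ j, if rel i j then (1 : ℝ) else 0) / (N : ℝ) ^ 2 := by
  classical
  unfold DD uw
  rw [sum_div]
  apply sum_congr rfl
  intro i _
  rw [sum_div]
  apply sum_congr rfl
  intro j _
  split_ifs
  · ring
  · simp

open scoped Classical in
/-- comparison of two relations -/
lemma TT_uw_le {N : ℕ} (hN : 0 < N) (rel rel' : Fin N → Fin N → Prop) :
    TT G rel (uw N) ≤ TT G rel' (uw N) + (Fintype.card V : ℝ) ^ 2 *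
      (((univ : Finset (Fin N × Fin N)).filter (fun p => rel p.1 p.2 ∧ ¬ rel' p.1 p.2)).card : ℝ) /
        (N : ℝ) ^ 2 := by
  set R := (univ : Finset (Fin N × Fin N)).filter (fun p => rel p.1 p.2 ∧ ¬ rel' p.1 p.2) with hR
  rw [TT_uw, TT_uw]
  have hN0 : (0 : ℝ) < N := by exact_mod_cast hN
  have hsub : homs G rel ⊆ homs G rel' ∪
      (univ : Finset (V → Fin N)).filter (fun φ => ∃ x y, x ≠ y ∧ (φ x, φ y) ∈ R) := by
    intro φ hφ
    unfold homs at hφ ⊢
    rw [mem_filter] at hφ
    rw [mem_union, mem_filter, mem_filter]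
    by_cases h : IsHom G rel' φ
    · exact Or.inl ⟨mem_univ _, h⟩
    · right
      refine ⟨mem_univ _, ?_⟩
      unfold IsHom at h
      push Not at h
      obtain ⟨x, y, hxy, h⟩ := h
      refine ⟨x, y, hxy.ne, ?_⟩
      rw [hR, mem_filter]
      exact ⟨mem_univ _, hφ.2 x y hxy, h⟩
  have h1 := (card_le_card hsub).trans (card_union_le _ _)
  have h2 := card_bad (V := V) R
  have h1' : ((homs G rel).card : ℝ) ≤ (homs G rel').card +
      ((univ : Finset (V → Fin N)).filter (fun φ => ∃ x y, x ≠ y ∧ (φ x, φ y) ∈ R)).card := by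
    exact_mod_cast h1
  have h2' : (((univ : Finset (V → Fin N)).filter
      (fun φ => ∃ x y, x ≠ y ∧ (φ x, φ y) ∈ R)).card : ℝ) * (N : ℝ) ^ 2 ≤
      (Fintype.card V : ℝ) ^ 2 * ((R.card : ℝ) * (N : ℝ) ^ (Fintype.card V)) := by
    exact_mod_cast h2
  have hNv : (0 : ℝ) < (N : ℝ) ^ (Fintype.card V) := by positivity
  rw [div_le_iff₀ hNv, add_mul, div_mul_cancel₀ _ hNv.ne']
  refine h1'.trans ?_
  have h3 : (((univ : Finset (V → Fin N)).filter
      (fun φ => ∃ x y, x ≠ y ∧ (φ x, φ y) ∈ R)).card : ℝ) ≤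
      (Fintype.card V : ℝ) ^ 2 * (R.card : ℝ) / (N : ℝ) ^ 2 * (N : ℝ) ^ (Fintype.card V) := by
    rw [div_mul_eq_mul_div, le_div_iff₀ (by positivity)]
    calc _ ≤ _ := h2'
      _ = _ := by ring
  linarith

end

end Pool.Agent.LibTGraph
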