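import Mathlib
import Pool.Agent.LibTGraph.Analytic2

namespace Pool.Agent.LibTGraph

open Finset
open scoped Classical

variable {V : Type*} (G : SimpleGraph V)

/-- independent set -/
def Ind (T : Finset V) : Prop := ∀ x ∈ T, ∀ y ∈ T, ¬ G.Adj x y

/-- the hard-core partition function -/
noncomputable def Z (U : Finset V) (c h : ℝ) : ℝ :=
  ∑ T ∈ U.powerset, if Ind G T then h ^ T.card * c ^ (U \ T).card else 0

lemma ind_empty : Ind G ∅ := by intro x hx; simp at hx

lemma Z_empty (c h : ℝ) : Z G ∅ c h = 1 := by
  simp [Z, ind_empty]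

lemma Z_pos (U : Finset V) {c h : ℝ} (hc : 0 < c) (hh : 0 ≤ h) : 0 < Z G U c h := by
  unfold Z
  apply Finset.sum_pos'
  · intro T _
    split_ifs <;> positivity
  · refine ⟨∅, by simp, ?_⟩
    rw [if_pos (ind_empty G), Finset.card_empty, pow_zero, one_mul]
    positivity

lemma Z_zero (U : Finset V) (c : ℝ) : Z G U c 0 = c ^ U.card := by
  unfold Z
  rw [Finset.sum_eq_single ∅]
  · rw [if_pos (ind_empty G)]
    simp
  · intro T _ hT
    split_ifs
    · have : T.card ≠ 0 := by
        rw [Ne, Finset.card_eq_zero]; exact hT
      rw [zero_pow this, zero_mul]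
    · rfl
  · intro h
    exact absurd (Finset.empty_mem_powerset U) h

lemma Z_smul (U : Finset V) (l c h : ℝ) : Z G U (l * c) (l * h) = l ^ U.card * Z G U c h := by
  unfold Z
  rw [Finset.mul_sum]
  apply Finset.sum_congr rfl
  intro T hT
  rw [Finset.mem_powerset] at hT
  split_ifs
  · have h1 : U.card = T.card + (U \ T).card := by
      rw [Finset.card_sdiff_of_subset hT]
      have := Finset.card_le_card hT
      omega
    rw [h1, pow_add, mul_pow, mul_pow]
    ring
  · simp

lemma Z_rec (U : Finset V) (u : V) (hu : u ∈ U) (c h : ℝ) :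
    Z G U c h = c * Z G (U.erase u) c h +
      h * (c ^ ((U.erase u).filter (fun x => G.Adj u x)).card *
        Z G ((U.erase u).filter (fun x => ¬ G.Adj u x)) c h) := by
  set U' := U.erase u with hU'
  have huU' : u ∉ U' := by rw [hU']; simp
  have hins : U = insert u U' := by rw [hU', Finset.insert_erase hu]
  have e0 : Z G U c h = ∑ T ∈ (insert u U').powerset,
      if Ind G T then h ^ T.card * c ^ ((insert u U') \ T).card else 0 := by
    unfold Z
    rw [← hins]
  rw [e0, Finset.sum_powerset_insert huU']
  congr 1
  · unfold Z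
    rw [Finset.mul_sum]
    apply Finset.sum_congr rfl
    intro T hT
    rw [Finset.mem_powerset] at hT
    have huT : u ∉ T := fun h' => huU' (hT h')
    split_ifs
    · have : (insert u U' \ T).card = (U' \ T).card + 1 := by
        rw [Finset.insert_sdiff_of_notMem _ huT, Finset.card_insert_of_notMem]
        intro h'
        exact huU' (Finset.mem_sdiff.1 h').1
      rw [this, pow_succ]
      ring
    · simp
  · unfold Z
    set W := U'.filter (fun x => ¬ G.Adj u x) with hW
    have hWU : W ⊆ U' := Finset.filter_subset _ _
    have hsub : W.powerset ⊆ U'.powerset := Finset.powerset_mono.2 hWU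
    rw [← Finset.sum_subset hsub]
    · rw [Finset.mul_sum, Finset.mul_sum]
      apply Finset.sum_congr rfl
      intro T hT
      rw [Finset.mem_powerset] at hT
      have huT : u ∉ T := fun h' => huU' (hWU (hT h'))
      have hiff : Ind G (insert u T) ↔ Ind G T := by
        constructor
        · intro h1 x hx y hy
          exact h1 x (Finset.mem_insert_of_mem hx) y (Finset.mem_insert_of_mem hy)
        · intro h1 x hx y hy
          rw [Finset.mem_insert] at hx hy
          rcases hx with rfl | hx
          · rcases hy with rfl | hy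
            · exact G.loopless.irrefl _
            · have := hT hy
              rw [hW, Finset.mem_filter] at this
              exact this.2
          · rcases hy with rfl | hy
            · have := hT hx
              rw [hW, Finset.mem_filter] at this
              exact fun h' => this.2 h'.symm
            · exact h1 x hx y hy
      by_cases hi : Ind G T
      · rw [if_pos hi, if_pos (hiff.2 hi)]
        have h1 : (insert u U' \ insert u T).card =
            (U'.filter (fun x => G.Adj u x)).card + (W \ T).card := by
          have h2 : insert u U' \ insert u T = U' \ T := by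
            ext x
            simp only [Finset.mem_sdiff, Finset.mem_insert, not_or]
            constructor
            · rintro ⟨h3 | h3, h4, h5⟩
              · exact absurd h3 h4
              · exact ⟨h3, h5⟩
            · rintro ⟨h3, h5⟩
              exact ⟨Or.inr h3, fun h' => huU' (h' ▸ h3), h5⟩
          rw [h2, Finset.card_sdiff_of_subset (hT.trans hWU), Finset.card_sdiff_of_subset hT]
          have h3 : U'.card = (U'.filter (fun x => G.Adj u x)).card + W.card := by
            rw [hW, Finset.card_filter_add_card_filter_not]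
          have h4 := Finset.card_le_card hT
          omega
        rw [h1, Finset.card_insert_of_notMem huT, pow_succ, pow_add]
        ring
      · rw [if_neg hi, if_neg (fun h' => hi (hiff.1 h'))]
        simp
    · intro T hT hT'
      rw [Finset.mem_powerset] at hT hT'
      rw [if_neg]
      intro hi
      apply hT'
      intro x hx
      rw [hW, Finset.mem_filter]
      exact ⟨hT hx, hi u (Finset.mem_insert_self _ _) x (Finset.mem_insert_of_mem hx)⟩

lemma P_erase_le (U : Finset V) (u : V) (hu : u ∈ U) {p : ℝ} (h0 : 0 ≤ p) (h1 : p < 1) :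
    (1 - p) * Z G (U.erase u) (1 - p) p ≤ Z G U (1 - p) p := by
  rw [Z_rec G U u hu]
  have : 0 ≤ p * ((1 - p) ^ ((U.erase u).filter (fun x => G.Adj u x)).card *
        Z G ((U.erase u).filter (fun x => ¬ G.Adj u x)) (1 - p) p) := by
    have h2 := Z_pos G ((U.erase u).filter (fun x => ¬ G.Adj u x)) (show 0 < 1 - p by linarith) h0
    have h3 : 0 < 1 - p := by linarith
    positivity
  linarith

lemma P_sub_le {p : ℝ} (h0 : 0 ≤ p) (h1 : p < 1) (s : Finset V) :
    ∀ t : Finset V, Disjoint s t →
      (1 - p) ^ t.card * Z G s (1 - p) p ≤ Z G (s ∪ t) (1 - p) p := by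
  intro t
  induction t using Finset.induction_on with
  | empty => simp
  | insert a t ha ih =>
    intro hd
    rw [Finset.disjoint_insert_right] at hd
    have ih' := ih hd.2
    have haU : a ∈ s ∪ insert a t := by simp
    have h2 := P_erase_le G (s ∪ insert a t) a haU h0 h1
    have h3 : (s ∪ insert a t).erase a = s ∪ t := by
      ext x
      simp only [Finset.mem_erase, Finset.mem_union, Finset.mem_insert]
      constructor
      · rintro ⟨h4, h5 | h5 | h5⟩
        · exact Or.inl h5
        · exact absurd h5 h4
        · exact Or.inr h5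
      · rintro (h5 | h5)
        · exact ⟨fun h' => hd.1 (h' ▸ h5), Or.inl h5⟩
        · exact ⟨fun h' => ha (h' ▸ h5), Or.inr (Or.inr h5)⟩
    rw [h3] at h2
    rw [Finset.card_insert_of_notMem ha, pow_succ]
    have h4 : 0 ≤ 1 - p := by linarith
    calc (1 - p) ^ t.card * (1 - p) * Z G s (1 - p) p
        = (1 - p) * ((1 - p) ^ t.card * Z G s (1 - p) p) := by ring
      _ ≤ (1 - p) * Z G (s ∪ t) (1 - p) p := mul_le_mul_of_nonneg_left ih' h4
      _ ≤ _ := h2

/-- bound for the conditional probability -/
lemma P_nbr_le (U : Finset V) (u : V) {p : ℝ} (h0 : 0 ≤ p) (h1 : p < 1) :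
    (1 - p) ^ (U.filter (fun x => G.Adj u x)).card *
      Z G (U.filter (fun x => ¬ G.Adj u x)) (1 - p) p ≤ Z G U (1 - p) p := by
  have hd : Disjoint (U.filter (fun x => ¬ G.Adj u x)) (U.filter (fun x => G.Adj u x)) :=
    (Finset.disjoint_filter_filter_not U U _).symm
  have := P_sub_le G h0 h1 (U.filter (fun x => ¬ G.Adj u x)) (U.filter (fun x => G.Adj u x)) hd
  have h2 : U.filter (fun x => ¬ G.Adj u x) ∪ U.filter (fun x => G.Adj u x) = U := by
    rw [Finset.union_comm, Finset.filter_union_filter_not_eq]
  rwa [h2] at this

lemma P_le_erase (U : Finset V) (u : V) (hu : u ∈ U) {p : ℝ} (h0 : 0 ≤ p) (h1 : p < 1) :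
    Z G U (1 - p) p ≤ Z G (U.erase u) (1 - p) p := by
  rw [Z_rec G U u hu]
  have h2 := P_nbr_le G (U.erase u) u h0 h1
  have h3 := mul_le_mul_of_nonneg_left h2 h0
  linarith

lemma P_mono {p : ℝ} (h0 : 0 ≤ p) (h1 : p < 1) (s : Finset V) :
    ∀ t : Finset V, Disjoint s t → Z G (s ∪ t) (1 - p) p ≤ Z G s (1 - p) p := by
  intro t
  induction t using Finset.induction_on with
  | empty => simp
  | insert a t ha ih =>
    intro hd
    rw [Finset.disjoint_insert_right] at hd
    have ih' := ih hd.2
    have haU : a ∈ s ∪ insert a t := by simp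
    have h2 := P_le_erase G (s ∪ insert a t) a haU h0 h1
    have h3 : (s ∪ insert a t).erase a = s ∪ t := by
      ext x
      simp only [Finset.mem_erase, Finset.mem_union, Finset.mem_insert]
      constructor
      · rintro ⟨h4, h5 | h5 | h5⟩
        · exact Or.inl h5
        · exact absurd h5 h4
        · exact Or.inr h5
      · rintro (h5 | h5)
        · exact ⟨fun h' => hd.1 (h' ▸ h5), Or.inl h5⟩
        · exact ⟨fun h' => ha (h' ▸ h5), Or.inr (Or.inr h5)⟩
    rw [h3] at h2
    exact h2.trans ih'

/-- the key inequality for the hard-core model -/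
theorem star {p p' α : ℝ} (h : Par p p' α) (U : Finset V) :
    Z G U (1 - p') p' ≤ (Z G U (1 - p) p) ^ α := by
  have hp0 := h.p0
  have hp1 := h.p1
  have hp'0 := h.p'0
  have hp'1 : p' < 1 := lt_trans h.lt h.p1
  have hq : 0 < 1 - p := by linarith
  have hq' : 0 < 1 - p' := by linarith
  induction U using Finset.strongInduction with
  | _ U ih =>
    rcases U.eq_empty_or_nonempty with rfl | ⟨u, hu⟩
    · rw [Z_empty, Z_empty, Real.one_rpow]
    · rw [Z_rec G U u hu (1 - p') p', Z_rec G U u hu (1 - p) p]
      set U' := U.erase u with hU'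
      set W := U'.filter (fun x => ¬ G.Adj u x) with hW
      set d := (U'.filter (fun x => G.Adj u x)).card with hd
      have hU'ss : U' ⊂ U := Finset.erase_ssubset hu
      have hWss : W ⊂ U := lt_of_le_of_lt (Finset.filter_subset _ _) hU'ss
      have i1 := ih U' hU'ss
      have i2 := ih W hWss
      set X := Z G U' (1 - p) p with hX
      set Y := Z G W (1 - p) p with hY
      have hX0 : 0 < X := Z_pos G U' hq hp0.le
      have hY0 : 0 < Y := Z_pos G W hq hp0.le
      have hYX : (1 - p) ^ d * Y ≤ X := P_nbr_le G U' u hp0.le hp1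
      have hXY : X ≤ Y := by
        have hdis : Disjoint W (U'.filter (fun x => G.Adj u x)) :=
          (Finset.disjoint_filter_filter_not U' U' _).symm
        have h1 := P_mono G hp0.le hp1 W (U'.filter (fun x => G.Adj u x)) hdis
        have h2 : W ∪ U'.filter (fun x => G.Adj u x) = U' := by
          rw [hW, Finset.union_comm, Finset.filter_union_filter_not_eq]
        rwa [h2] at h1
      set t := (1 - p) ^ d * Y / X with ht
      have ht1 : t ≤ 1 := (div_le_one hX0).2 hYX
      have htd : (1 - p) ^ d ≤ t := by
        rw [ht, le_div_iff₀ hX0]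
        exact mul_le_mul_of_nonneg_left hXY (by positivity)
      have hst := step_ineq h d t htd ht1
      have hXα : 0 < X ^ α := Real.rpow_pos_of_pos hX0 _
      have e1 : (1 - p) * X + p * ((1 - p) ^ d * Y) = X * ((1 - p) + p * t) := by
        rw [ht]; field_simp
      have ht0 : 0 < t := by positivity
      rw [e1, Real.mul_rpow hX0.le (by positivity)]
      have e2 : Y ^ α * (1 - p') ^ d =
          X ^ α * (((1 - p') / (1 - p) ^ α) ^ d * t ^ α) := by
        have h1 : t ^ α = ((1 - p) ^ α) ^ d * Y ^ α / X ^ α := by
          rw [ht, Real.div_rpow (by positivity) hX0.le, Real.mul_rpow (by positivity) hY0.le]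
          congr 2
          rw [← Real.rpow_natCast, ← Real.rpow_natCast, ← Real.rpow_mul hq.le,
            ← Real.rpow_mul hq.le, mul_comm]
        have h2 : 0 < (1 - p) ^ α := Real.rpow_pos_of_pos hq _
        rw [h1, div_pow]
        field_simp
      calc (1 - p') * Z G U' (1 - p') p' + p' * ((1 - p') ^ d * Z G W (1 - p') p')
          ≤ (1 - p') * X ^ α + p' * ((1 - p') ^ d * Y ^ α) := by
            gcongr
        _ = X ^ α * ((1 - p') + p' * ((1 - p') / (1 - p) ^ α) ^ d * t ^ α) := by
            have : (1 - p') ^ d * Y ^ α = Y ^ α * (1 - p') ^ d := by ring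
            rw [this, e2]
            ring
        _ ≤ X ^ α * ((1 - p) + p * t) ^ α := mul_le_mul_of_nonneg_left hst hXα.le

end Pool.Agent.LibTGraph
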