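import Mathlib
import Pool.Agent.LibTGraph.Basic
import Pool.Agent.LibTGraph.HardCore

namespace Pool.Agent.LibTGraph

open Finset

section

variable {V : Type*} [Fintype V] [DecidableEq V] (G : SimpleGraph V)

open scoped Classical in
/-- vertices outside `S` with a neighbour outside `S` -/
noncomputable def U1 (S : Finset V) : Finset V :=
  Finset.univ.filter (fun x => x ∉ S ∧ ∃ y, y ∉ S ∧ G.Adj x y)

open scoped Classical in
/-- vertices outside `S` without a neighbour outside `S` -/
noncomputable def U0 (S : Finset V) : Finset V :=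
  Finset.univ.filter (fun x => x ∉ S ∧ ¬ ∃ y, y ∉ S ∧ G.Adj x y)

/-- zero set -/
def zs (φ : V → Fin 4) : Finset V := Finset.univ.filter (fun x => φ x = 0)

/-- class two in `U1` -/
noncomputable def ts (φ : V → Fin 4) : Finset V := (U1 G (zs φ)).filter (fun x => φ x = 2)

open scoped Classical in
/-- allowed classes -/
noncomputable def A4 (S T : Finset V) (x : V) : Finset (Fin 4) :=
  if x ∈ S then {0} else if x ∈ T then {2} else if x ∈ U1 G S then {1} else {1, 2, 3}

lemma mem_A4_iff (S T : Finset V) (hT : T ⊆ U1 G S) (hi : Ind G T) (φ : V → Fin 4) :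
    ((zs φ, ts G φ) = (S, T) ∧ IsHom G (can 4) φ) ↔ φ ∈ Fintype.piFinset (A4 G S T) := by
  classical
  rw [Fintype.mem_piFinset]
  have hTS : ∀ x ∈ T, x ∉ S := by
    intro x hx
    have := hT hx
    unfold U1 at this
    rw [Finset.mem_filter] at this
    exact this.2.1
  constructor
  · rintro ⟨he, hh⟩ x
    rw [Prod.mk.injEq] at he
    obtain ⟨h1, h2⟩ := he
    have hS : ∀ x, x ∈ S ↔ φ x = 0 := by
      intro x
      rw [← h1]
      simp [zs]
    have hT' : ∀ x, x ∈ T ↔ x ∈ U1 G S ∧ φ x = 2 := by
      intro x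
      rw [← h2, ← h1]
      simp [ts]
    unfold A4
    by_cases c1 : x ∈ S
    · rw [if_pos c1]
      simp [(hS x).1 c1]
    · rw [if_neg c1]
      have n0 : φ x ≠ 0 := fun h => c1 ((hS x).2 h)
      by_cases c2 : x ∈ T
      · rw [if_pos c2]
        simp [((hT' x).1 c2).2]
      · rw [if_neg c2]
        by_cases c3 : x ∈ U1 G S
        · rw [if_pos c3]
          have n2 : φ x ≠ 2 := fun h => c2 ((hT' x).2 ⟨c3, h⟩)
          have n3 : φ x ≠ 3 := by
            intro h
            unfold U1 at c3
            rw [Finset.mem_filter] at c3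
            obtain ⟨_, _, y, hy, hxy⟩ := c3
            have h4 := hh x y hxy
            unfold can at h4
            rw [h] at h4
            have h5 : φ y ≠ 0 := fun h' => hy ((hS y).2 h')
            have h6 : (φ y : ℕ) ≠ 0 := fun h' => h5 (Fin.ext h')
            simp only [Fin.isValue, Fin.coe_ofNat_eq_mod, Nat.reduceMod] at h4
            omega
          have : φ x = 1 := by
            generalize φ x = z at *
            fin_cases z <;> simp_all
          simp [this]
        · rw [if_neg c3]
          generalize φ x = z at *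
          fin_cases z <;> simp_all
  · intro hφ
    have v0 : ∀ x, x ∈ S → φ x = 0 := by
      intro x hx
      have := hφ x
      unfold A4 at this
      rw [if_pos hx] at this
      simpa using this
    have v2 : ∀ x, x ∈ T → φ x = 2 := by
      intro x hx
      have := hφ x
      unfold A4 at this
      rw [if_neg (hTS x hx), if_pos hx] at this
      simpa using this
    have v1 : ∀ x, x ∈ U1 G S → x ∉ T → φ x = 1 := by
      intro x hx hxT
      have hxS : x ∉ S := by
        unfold U1 at hx
        rw [Finset.mem_filter] at hx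
        exact hx.2.1
      have := hφ x
      unfold A4 at this
      rw [if_neg hxS, if_neg hxT, if_pos hx] at this
      simpa using this
    have vn : ∀ x, x ∉ S → φ x ≠ 0 := by
      intro x hx h0
      have := hφ x
      unfold A4 at this
      rw [if_neg hx, h0] at this
      split_ifs at this <;> simp at this
    have hzs : zs φ = S := by
      ext x
      simp only [zs, Finset.mem_filter, Finset.mem_univ, true_and]
      constructor
      · intro h
        by_contra hx
        exact vn x hx h
      · exact v0 x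
    have hts : ts G φ = T := by
      ext x
      unfold ts
      rw [hzs, Finset.mem_filter]
      constructor
      · rintro ⟨h1, h2⟩
        by_contra hx
        have := v1 x h1 hx
        rw [this] at h2
        exact absurd h2 (by decide)
      · intro h
        exact ⟨hT h, v2 x h⟩
    refine ⟨by rw [hzs, hts], ?_⟩
    intro x y hxy
    unfold can
    by_cases c1 : x ∈ S
    · rw [v0 x c1]
      have := (φ y).2
      simp only [Fin.isValue, Fin.coe_ofNat_eq_mod, Nat.zero_mod]
      omega
    · by_cases c2 : y ∈ S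
      · rw [v0 y c2]
        have := (φ x).2
        simp only [Fin.isValue, Fin.coe_ofNat_eq_mod, Nat.zero_mod]
        omega
      · have ux : x ∈ U1 G S := by
          unfold U1; rw [Finset.mem_filter]; exact ⟨Finset.mem_univ _, c1, y, c2, hxy⟩
        have uy : y ∈ U1 G S := by
          unfold U1; rw [Finset.mem_filter]; exact ⟨Finset.mem_univ _, c2, x, c1, hxy.symm⟩
        by_cases d1 : x ∈ T
        · by_cases d2 : y ∈ T
          · exact absurd hxy (hi x d1 y d2)
          · rw [v2 x d1, v1 y uy d2]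
            decide
        · by_cases d2 : y ∈ T
          · rw [v1 x ux d1, v2 y d2]
            decide
          · rw [v1 x ux d1, v1 y uy d2]
            decide

lemma prod_A4 (S T : Finset V) (hT : T ⊆ U1 G S) (w : Fin 4 → ℝ) :
    ∏ x, ∑ k ∈ A4 G S T x, w k =
      w 0 ^ S.card * (w 1 + w 2 + w 3) ^ (U0 G S).card *
        (w 2 ^ T.card * w 1 ^ (U1 G S \ T).card) := by
  classical
  have hTS : ∀ x ∈ T, x ∉ S := by
    intro x hx
    have := hT hx
    unfold U1 at this
    rw [Finset.mem_filter] at this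
    exact this.2.1
  have e1 : ∀ x, ∑ k ∈ A4 G S T x, w k = if x ∈ S then w 0 else if x ∈ T then w 2 else
      if x ∈ U1 G S then w 1 else w 1 + w 2 + w 3 := by
    intro x
    unfold A4
    split_ifs
    · simp
    · simp
    · simp
    · rw [Finset.sum_insert (by decide), Finset.sum_insert (by decide), Finset.sum_singleton]
      ring
  rw [Finset.prod_congr rfl (fun x _ => e1 x)]
  rw [Finset.prod_ite, Finset.prod_const, Finset.prod_ite, Finset.prod_const, Finset.prod_ite,
    Finset.prod_const, Finset.prod_const]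
  have f1 : Finset.univ.filter (fun x => x ∈ S) = S := by ext x; simp
  have f2 : (Finset.univ.filter (fun x => ¬ x ∈ S)).filter (fun x => x ∈ T) = T := by
    ext x
    simp only [Finset.mem_filter, Finset.mem_univ, true_and]
    exact ⟨fun h => h.2, fun h => ⟨hTS x h, h⟩⟩
  have f3 : ((Finset.univ.filter (fun x => ¬ x ∈ S)).filter (fun x => ¬ x ∈ T)).filter
      (fun x => x ∈ U1 G S) = U1 G S \ T := by
    ext x
    simp only [Finset.mem_filter, Finset.mem_univ, true_and, Finset.mem_sdiff]
    constructor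
    · rintro ⟨⟨_, h2⟩, h3⟩
      exact ⟨h3, h2⟩
    · rintro ⟨h3, h2⟩
      refine ⟨⟨?_, h2⟩, h3⟩
      unfold U1 at h3
      rw [Finset.mem_filter] at h3
      exact h3.2.1
  have f4 : ((Finset.univ.filter (fun x => ¬ x ∈ S)).filter (fun x => ¬ x ∈ T)).filter
      (fun x => ¬ x ∈ U1 G S) = U0 G S := by
    ext x
    simp only [Finset.mem_filter, Finset.mem_univ, true_and]
    unfold U0 U1
    simp only [Finset.mem_filter, Finset.mem_univ, true_and]
    constructor
    · rintro ⟨⟨h1, _⟩, h3⟩
      exact ⟨h1, fun h4 => h3 ⟨h1, h4⟩⟩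
    · rintro ⟨h1, h3⟩
      refine ⟨⟨h1, fun h4 => ?_⟩, fun h4 => h3 h4.2⟩
      have := hT h4
      unfold U1 at this
      rw [Finset.mem_filter] at this
      exact h3 this.2.2
  rw [f1, f2, f3, f4]
  ring

lemma TT4 (w : Fin 4 → ℝ) :
    TT G (can 4) w = ∑ S : Finset V, w 0 ^ S.card * (w 1 + w 2 + w 3) ^ (U0 G S).card *
      Z G (U1 G S) (w 1) (w 2) := by
  classical
  unfold TT
  rw [← Finset.sum_fiberwise (Finset.univ : Finset (V → Fin 4)) (fun φ => (zs φ, ts G φ))]
  rw [Fintype.sum_prod_type]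
  apply Finset.sum_congr rfl
  intro S _
  have hZ : Z G (U1 G S) (w 1) (w 2) = ∑ T : Finset V, if T ⊆ U1 G S ∧ Ind G T then
      w 2 ^ T.card * w 1 ^ (U1 G S \ T).card else 0 := by
    unfold Z
    rw [← Finset.sum_subset (Finset.subset_univ (U1 G S).powerset)]
    · apply Finset.sum_congr rfl
      intro T hT
      rw [Finset.mem_powerset] at hT
      simp only [hT, true_and]
      split_ifs
      · congr 2
        congr 1
        ext x; simp
      · rfl
    · intro T _ hT
      rw [Finset.mem_powerset] at hT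
      rw [if_neg]
      exact fun h => hT h.1
  rw [hZ, Finset.mul_sum]
  apply Finset.sum_congr rfl
  intro T _
  by_cases hT : T ⊆ U1 G S ∧ Ind G T
  · rw [if_pos hT, ← prod_A4 G S T hT.1 w, Finset.prod_univ_sum, ← Finset.sum_filter,
      Finset.filter_filter]
    apply Finset.sum_congr
    · ext φ
      rw [← mem_A4_iff G S T hT.1 hT.2 φ]
      simp
    · intro φ _
      rfl
  · rw [if_neg hT, mul_zero]
    apply Finset.sum_eq_zero
    intro φ hφ
    rw [Finset.mem_filter] at hφ
    rw [if_neg]
    intro hh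
    apply hT
    have h1 := hφ.2
    rw [Prod.mk.injEq] at h1
    constructor
    · rw [← h1.2, ← h1.1]
      exact Finset.filter_subset _ _
    · rw [← h1.2]
      intro x hx y hy hxy
      unfold ts at hx hy
      rw [Finset.mem_filter] at hx hy
      have := hh x y hxy
      unfold can at this
      rw [hx.2, hy.2] at this
      exact absurd this (by decide)

lemma DD4 (w : Fin 4 → ℝ) : DD (can 4) w =
    w 0 ^ 2 + 2 * w 0 * (w 1 + w 2 + w 3) + (w 1 ^ 2 + 2 * w 1 * w 2) := by
  classical
  unfold DD can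
  simp [Fin.sum_univ_four]
  ring

/-- a four-class structure is dominated by one with fewer classes -/
lemma four_move (w : Fin 4 → ℝ) (hw : Simp w) (h1 : 0 < w 1) (h2 : 0 < w 2) (h3 : 0 < w 3) :
    ∃ w' : Fin 4 → ℝ, Simp w' ∧ DD (can 4) w' = DD (can 4) w ∧
      TT G (can 4) w ≤ TT G (can 4) w' ∧ (w' 2 = 0 ∨ w' 3 = 0) := by
  classical
  set l := w 1 + w 2 + w 3 with hl
  set B := w 1 ^ 2 + 2 * w 1 * w 2 with hB
  set m := w 1 + w 2 with hm
  have hB0 : 0 < B := by positivity
  have hm0 : 0 < m := by positivity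
  have hl0 : 0 < l := by positivity
  have hml : m < l := by rw [hl, hm]; linarith
  have hBm : B = m ^ 2 - w 2 ^ 2 := by rw [hB, hm]; ring
  have hBm' : B < m ^ 2 := by rw [hBm]; nlinarith
  have hml2 : m ^ 2 < l ^ 2 := by nlinarith
  set p' := w 2 / m with hp'
  set p := √(1 - B / l ^ 2) with hp
  have hBl : B / l ^ 2 < 1 := by
    rw [div_lt_one (by positivity)]; linarith
  have hp2 : p ^ 2 = 1 - B / l ^ 2 := Real.sq_sqrt (by linarith)
  have hp0 : 0 < p := Real.sqrt_pos.2 (by linarith)
  have hp1 : p < 1 := by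
    have : p ^ 2 < 1 := by rw [hp2]; have := div_pos hB0 (pow_pos hl0 2); linarith
    nlinarith
  have hp'0 : 0 < p' := by positivity
  have hp'2 : 1 - p' ^ 2 = B / m ^ 2 := by
    rw [hp', hBm]; field_simp
  have hlt2 : p' ^ 2 < p ^ 2 := by
    have : B / l ^ 2 < B / m ^ 2 := by
      apply div_lt_div_of_pos_left hB0 (by positivity) hml2
    rw [hp2]
    linarith
  have hlt : p' < p := by nlinarith
  have hpp : 1 - p ^ 2 = B / l ^ 2 := by rw [hp2]; ring
  have hlogp : Real.log (1 - p ^ 2) < 0 := Real.log_neg (by rw [hpp]; positivity) (by nlinarith)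
  have hlogp' : Real.log (1 - p' ^ 2) < 0 :=
    Real.log_neg (by rw [hp'2]; positivity) (by nlinarith)
  have hloglt : Real.log (1 - p ^ 2) < Real.log (1 - p' ^ 2) :=
    Real.log_lt_log (by rw [hpp]; positivity) (by linarith)
  set α := Real.log (1 - p' ^ 2) / Real.log (1 - p ^ 2) with hα
  have hα0 : 0 < α := div_pos_of_neg_of_neg hlogp' hlogp
  have hα1 : α < 1 := by
    rw [hα, div_lt_one_of_neg hlogp]
    exact hloglt
  have hrel : 1 - p' ^ 2 = (1 - p ^ 2) ^ α := by
    have e1 : 0 < 1 - p ^ 2 := by rw [hpp]; positivity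
    have e2 : 0 < 1 - p' ^ 2 := by rw [hp'2]; positivity
    rw [Real.rpow_def_of_pos e1, hα, mul_div_cancel₀ _ hlogp.ne, Real.exp_log e2]
  have hpar : Par p p' α := ⟨hp'0, hlt, hp1, hα0, hα1, hrel⟩
  set s := √B with hs
  have hs0 : 0 < s := Real.sqrt_pos.2 hB0
  have hs2 : s ^ 2 = B := Real.sq_sqrt hB0.le
  have hsl : s ≤ l := by nlinarith
  -- m = s^(1-α) l^α
  have hmid : m = s ^ (1 - α) * l ^ α := by
    have e1 : m ^ 2 = B / (1 - p' ^ 2) := by rw [hp'2]; field_simp
    have e2 : (s ^ (1 - α) * l ^ α) ^ 2 = m ^ 2 := by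
      rw [e1, hrel, hpp, mul_pow, ← Real.rpow_natCast, ← Real.rpow_natCast,
        ← Real.rpow_mul hs0.le, ← Real.rpow_mul hl0.le, Real.div_rpow hB0.le (by positivity),
        ← hs2, ← Real.rpow_natCast s 2, ← Real.rpow_natCast l 2, ← Real.rpow_mul hs0.le,
        ← Real.rpow_mul hl0.le]
      have e3 : s ^ ((1 - α) * ((2 : ℕ) : ℝ)) = s ^ ((2 : ℕ) : ℝ) / s ^ (((2 : ℕ) : ℝ) * α) := by
        rw [← Real.rpow_sub hs0]; congr 1; ring
      rw [e3]
      have e4 : l ^ (α * ((2 : ℕ) : ℝ)) = l ^ (((2 : ℕ) : ℝ) * α) := by rw [mul_comm]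
      rw [e4]
      have h5 : 0 < s ^ (((2 : ℕ) : ℝ) * α) := Real.rpow_pos_of_pos hs0 _
      have h6 : 0 < l ^ (((2 : ℕ) : ℝ) * α) := Real.rpow_pos_of_pos hl0 _
      field_simp
    have h7 : 0 < s ^ (1 - α) * l ^ α := by positivity
    exact ((pow_left_inj₀ h7.le hm0.le two_ne_zero).1 e2).symm
  -- the two end points
  let w0 : Fin 4 → ℝ := ![w 0, s, 0, l - s]
  let w1 : Fin 4 → ℝ := ![w 0, (1 - p) * l, p * l, 0]
  have hsum : w 0 + l = 1 := by
    have := hw.sum
    rw [Fin.sum_univ_four] at this
    rw [hl]; linarith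
  have hS0 : Simp w0 := by
    constructor
    · intro k
      fin_cases k
      · exact hw.nonneg 0
      · exact hs0.le
      · exact le_refl _
      · show 0 ≤ l - s
        linarith
    · rw [Fin.sum_univ_four]
      show w 0 + s + 0 + (l - s) = 1
      linarith
  have hS1 : Simp w1 := by
    constructor
    · intro k
      fin_cases k
      · exact hw.nonneg 0
      · show 0 ≤ (1 - p) * l
        apply mul_nonneg _ hl0.le; linarith
      · show 0 ≤ p * l
        positivity
      · exact le_refl _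
    · rw [Fin.sum_univ_four]
      show w 0 + (1 - p) * l + p * l + 0 = 1
      linarith
  have hD0 : DD (can 4) w0 = DD (can 4) w := by
    rw [DD4, DD4]
    show w 0 ^ 2 + 2 * w 0 * (s + 0 + (l - s)) + (s ^ 2 + 2 * s * 0) =
      w 0 ^ 2 + 2 * w 0 * (w 1 + w 2 + w 3) + (w 1 ^ 2 + 2 * w 1 * w 2)
    rw [hs2, ← hl, ← hB]
    ring
  have hD1 : DD (can 4) w1 = DD (can 4) w := by
    rw [DD4, DD4]
    show w 0 ^ 2 + 2 * w 0 * ((1 - p) * l + p * l + 0) +
      (((1 - p) * l) ^ 2 + 2 * ((1 - p) * l) * (p * l)) =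
      w 0 ^ 2 + 2 * w 0 * (w 1 + w 2 + w 3) + (w 1 ^ 2 + 2 * w 1 * w 2)
    rw [← hl, ← hB]
    have e1 : ((1 - p) * l) ^ 2 + 2 * ((1 - p) * l) * (p * l) = (1 - p ^ 2) * l ^ 2 := by ring
    rw [e1, hpp]
    field_simp
    ring
  have hmain : TT G (can 4) w ≤ (1 - α) * TT G (can 4) w0 + α * TT G (can 4) w1 := by
    rw [TT4 G w, TT4 G w0, TT4 G w1, Finset.mul_sum, Finset.mul_sum, ← Finset.sum_add_distrib]
    apply Finset.sum_le_sum
    intro S _
    set U := U1 G S with hU
    have g0 : Z G U (w0 1) (w0 2) = s ^ U.card := Z_zero G U s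
    have g1 : Z G U (w1 1) (w1 2) = l ^ U.card * Z G U (1 - p) p := by
      show Z G U ((1 - p) * l) (p * l) = _
      rw [mul_comm (1 - p), mul_comm p, Z_smul]
    have g2 : Z G U (w 1) (w 2) = m ^ U.card * Z G U (1 - p') p' := by
      have e1 : w 1 = m * (1 - p') := by rw [hp']; field_simp; rw [hm]; ring
      have e2 : w 2 = m * p' := by rw [hp']; field_simp
      calc Z G U (w 1) (w 2) = Z G U (m * (1 - p')) (m * p') := by rw [← e1, ← e2]
        _ = _ := Z_smul G U m (1 - p') p'
    have hkey : Z G U (w 1) (w 2) ≤ (1 - α) * Z G U (w0 1) (w0 2) + α * Z G U (w1 1) (w1 2) := by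
      rw [g0, g1, g2]
      have hz : 0 < Z G U (1 - p) p := Z_pos G U (by linarith) hp0.le
      have hst := star G hpar U
      have e1 : m ^ U.card = (s ^ U.card) ^ (1 - α) * (l ^ U.card) ^ α := by
        conv_lhs => rw [hmid]
        rw [mul_pow, ← Real.rpow_natCast, ← Real.rpow_natCast, ← Real.rpow_natCast s,
          ← Real.rpow_natCast l, ← Real.rpow_mul hs0.le, ← Real.rpow_mul hl0.le,
          ← Real.rpow_mul hs0.le, ← Real.rpow_mul hl0.le, mul_comm (1 - α), mul_comm α]
      have e2 : m ^ U.card * Z G U (1 - p') p' ≤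
          (s ^ U.card) ^ (1 - α) * (l ^ U.card * Z G U (1 - p) p) ^ α := by
        rw [Real.mul_rpow (by positivity) hz.le, ← mul_assoc, ← e1]
        exact mul_le_mul_of_nonneg_left hst (by positivity)
      refine e2.trans ?_
      exact Real.geom_mean_le_arith_mean2_weighted (by linarith) hα0.le (by positivity)
        (by positivity) (by ring)
    have hw00 : w0 0 = w 0 := rfl
    have hw10 : w1 0 = w 0 := rfl
    have hl0' : w0 1 + w0 2 + w0 3 = l := by show s + 0 + (l - s) = l; ring
    have hl1' : w1 1 + w1 2 + w1 3 = l := by show (1 - p) * l + p * l + 0 = l; ring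
    rw [hw00, hw10, hl0', hl1', ← hl]
    have hcoef : 0 ≤ w 0 ^ S.card * l ^ (U0 G S).card := by
      have := hw.nonneg 0
      positivity
    calc w 0 ^ S.card * l ^ (U0 G S).card * Z G U (w 1) (w 2)
        ≤ w 0 ^ S.card * l ^ (U0 G S).card *
          ((1 - α) * Z G U (w0 1) (w0 2) + α * Z G U (w1 1) (w1 2)) :=
          mul_le_mul_of_nonneg_left hkey hcoef
      _ = _ := by ring
  rcases le_total (TT G (can 4) w0) (TT G (can 4) w1) with hc | hc
  · refine ⟨w1, hS1, hD1, ?_, Or.inr rfl⟩
    nlinarith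
  · refine ⟨w0, hS0, hD0, ?_, Or.inl rfl⟩
    nlinarith

end

end Pool.Agent.LibTGraph
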