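import Pool.Agent.LibTGraph.Count

namespace Pool.Agent.LibTGraph

open Finset

section

variable {N : ℕ}

/-- the Kelmans transformation -/
def kel (A : SimpleGraph (Fin N)) (u w : Fin N) : SimpleGraph (Fin N) where
  Adj x y := (A.Adj x y ∧ (A.Adj (Equiv.swap u w x) (Equiv.swap u w y) ∨ (x ≠ u ∧ y ≠ u))) ∨
    (A.Adj (Equiv.swap u w x) (Equiv.swap u w y) ∧ (x = w ∨ y = w))
  symm := by
    constructor
    intro x y h
    rcases h with ⟨h1, h2⟩ | ⟨h1, h2⟩
    · exact Or.inl ⟨h1.symm, h2.imp (fun h => h.symm) (fun h => ⟨h.2, h.1⟩)⟩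
    · exact Or.inr ⟨h1.symm, h2.symm⟩
  loopless := by
    constructor
    intro x h
    rcases h with ⟨h1, _⟩ | ⟨h1, _⟩
    · exact A.loopless.1 _ h1
    · exact A.loopless.1 _ h1

lemma kel_out (A : SimpleGraph (Fin N)) {u w x y : Fin N} (hxu : x ≠ u) (hxw : x ≠ w)
    (hyu : y ≠ u) (hyw : y ≠ w) : (kel A u w).Adj x y ↔ A.Adj x y := by
  unfold kel
  simp only [Equiv.swap_apply_of_ne_of_ne hxu hxw, Equiv.swap_apply_of_ne_of_ne hyu hyw]
  tauto

lemma kel_u (A : SimpleGraph (Fin N)) {u w y : Fin N} (huw : u ≠ w)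
    (hyu : y ≠ u) (hyw : y ≠ w) : (kel A u w).Adj u y ↔ A.Adj u y ∧ A.Adj w y := by
  unfold kel
  simp only [Equiv.swap_apply_left, Equiv.swap_apply_of_ne_of_ne hyu hyw]
  tauto

lemma kel_w (A : SimpleGraph (Fin N)) {u w y : Fin N} (huw : u ≠ w)
    (hyu : y ≠ u) (hyw : y ≠ w) : (kel A u w).Adj w y ↔ A.Adj u y ∨ A.Adj w y := by
  unfold kel
  simp only [Equiv.swap_apply_right, Equiv.swap_apply_of_ne_of_ne hyu hyw]
  have := huw.symm
  tauto

lemma kel_uw (A : SimpleGraph (Fin N)) {u w : Fin N} (huw : u ≠ w) :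
    (kel A u w).Adj u w ↔ A.Adj u w := by
  unfold kel
  simp only [Equiv.swap_apply_right, Equiv.swap_apply_left]
  have := A.adj_comm u w
  tauto

/-- indicator -/
noncomputable def ind (p : Prop) : ℝ := by
  classical
  exact if p then 1 else 0

lemma ind_pos {p : Prop} (h : p) : ind p = 1 := by
  unfold ind
  rw [if_pos h]

lemma ind_neg {p : Prop} (h : ¬ p) : ind p = 0 := by
  unfold ind
  rw [if_neg h]

lemma ind_nonneg (p : Prop) : 0 ≤ ind p := by
  by_cases h : p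
  · rw [ind_pos h]; norm_num
  · rw [ind_neg h]

lemma ind_le_one (p : Prop) : ind p ≤ 1 := by
  by_cases h : p
  · rw [ind_pos h]
  · rw [ind_neg h]; norm_num

lemma ind_congr {p q : Prop} (h : p ↔ q) : ind p = ind q := by
  by_cases hq : q
  · rw [ind_pos hq, ind_pos (h.2 hq)]
  · rw [ind_neg hq, ind_neg (fun hp => hq (h.1 hp))]

lemma ind_or (p q : Prop) : ind (p ∨ q) = ind p + ind q - ind (p ∧ q) := by
  by_cases hp : p <;> by_cases hq : q
  · rw [ind_pos (Or.inl hp), ind_pos hp, ind_pos hq, ind_pos ⟨hp, hq⟩]; ring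
  · rw [ind_pos (Or.inl hp), ind_pos hp, ind_neg hq, ind_neg (fun h => hq h.2)]; ring
  · rw [ind_pos (Or.inr hq), ind_neg hp, ind_pos hq, ind_neg (fun h => hp h.1)]; ring
  · rw [ind_neg (fun h => h.elim hp hq), ind_neg hp, ind_neg hq, ind_neg (fun h => hp h.1)]; ring

lemma ind_diff (p q : Prop) : ind (p ∧ ¬ q) = ind p - ind (p ∧ q) := by
  by_cases hp : p <;> by_cases hq : q
  · rw [ind_neg (fun h => h.2 hq), ind_pos hp, ind_pos ⟨hp, hq⟩]; ring
  · rw [ind_pos ⟨hp, hq⟩, ind_pos hp, ind_neg (fun h => hq h.2)]; ring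
  · rw [ind_neg (fun h => hp h.1), ind_neg hp, ind_neg (fun h => hp h.1)]; ring
  · rw [ind_neg (fun h => hp h.1), ind_neg hp, ind_neg (fun h => hp h.1)]; ring

/-- degree -/
noncomputable def dg (A : SimpleGraph (Fin N)) (x : Fin N) : ℝ := ∑ y, ind (A.Adj x y)

/-- one sided difference of neighbourhoods -/
noncomputable def mu (A : SimpleGraph (Fin N)) (x y : Fin N) : ℝ :=
  ∑ z, ind (A.Adj x z ∧ ¬ A.Adj y z)

lemma sum_split (f : Fin N → ℝ) {u w : Fin N} (huw : u ≠ w) :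
    ∑ y, f y = f u + f w + ∑ y ∈ ((univ : Finset (Fin N)).erase u).erase w, f y := by
  rw [← add_sum_erase univ f (mem_univ u),
    ← add_sum_erase (univ.erase u) f (mem_erase.2 ⟨huw.symm, mem_univ w⟩)]
  ring

lemma mem_rest {u w y : Fin N} (hy : y ∈ ((univ : Finset (Fin N)).erase u).erase w) :
    y ≠ u ∧ y ≠ w := by
  rw [mem_erase, mem_erase] at hy
  exact ⟨hy.2.1, hy.1⟩

lemma dg_kel_out (A : SimpleGraph (Fin N)) {u w x : Fin N} (huw : u ≠ w) (hxu : x ≠ u)
    (hxw : x ≠ w) : dg (kel A u w) x = dg A x := by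
  unfold dg
  rw [sum_split _ huw, sum_split _ huw]
  have h1 : ∑ y ∈ ((univ : Finset (Fin N)).erase u).erase w, ind ((kel A u w).Adj x y) =
      ∑ y ∈ ((univ : Finset (Fin N)).erase u).erase w, ind (A.Adj x y) := by
    apply sum_congr rfl
    intro y hy
    obtain ⟨h1, h2⟩ := mem_rest hy
    exact ind_congr (kel_out A hxu hxw h1 h2)
  have h2 : ind ((kel A u w).Adj x u) = ind (A.Adj x u ∧ A.Adj x w) := by
    apply ind_congr
    rw [(kel A u w).adj_comm, kel_u A huw hxu hxw, A.adj_comm u, A.adj_comm w]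
  have h3 : ind ((kel A u w).Adj x w) = ind (A.Adj x u ∨ A.Adj x w) := by
    apply ind_congr
    rw [(kel A u w).adj_comm, kel_w A huw hxu hxw, A.adj_comm u, A.adj_comm w]
  rw [h1, h2, h3, ind_or]
  ring

lemma dg_u (A : SimpleGraph (Fin N)) {u w : Fin N} (huw : u ≠ w) : dg A u = ind (A.Adj u w) +
    ∑ y ∈ ((univ : Finset (Fin N)).erase u).erase w, ind (A.Adj u y) := by
  unfold dg
  rw [sum_split _ huw, ind_neg (A.loopless.1 u)]
  ring

lemma dg_w (A : SimpleGraph (Fin N)) {u w : Fin N} (huw : u ≠ w) : dg A w = ind (A.Adj u w) +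
    ∑ y ∈ ((univ : Finset (Fin N)).erase u).erase w, ind (A.Adj w y) := by
  unfold dg
  rw [sum_split _ huw, ind_neg (A.loopless.1 w), ind_congr (A.adj_comm w u)]
  ring

lemma mu_uw (A : SimpleGraph (Fin N)) {u w : Fin N} (huw : u ≠ w) : mu A u w = ind (A.Adj u w) +
    (∑ y ∈ ((univ : Finset (Fin N)).erase u).erase w, ind (A.Adj u y) -
    ∑ y ∈ ((univ : Finset (Fin N)).erase u).erase w, ind (A.Adj u y ∧ A.Adj w y)) := by
  unfold mu
  rw [sum_split _ huw, ← sum_sub_distrib, ind_neg (fun h => A.loopless.1 u h.1),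
    ind_congr (q := A.Adj u w) ⟨fun h => h.1, fun h => ⟨h, A.loopless.1 w⟩⟩]
  rw [zero_add]
  congr 1
  apply sum_congr rfl
  intro y _
  exact ind_diff _ _

lemma mu_wu (A : SimpleGraph (Fin N)) {u w : Fin N} (huw : u ≠ w) : mu A w u = ind (A.Adj u w) +
    (∑ y ∈ ((univ : Finset (Fin N)).erase u).erase w, ind (A.Adj w y) -
    ∑ y ∈ ((univ : Finset (Fin N)).erase u).erase w, ind (A.Adj u y ∧ A.Adj w y)) := by
  unfold mu
  rw [sum_split _ huw, ← sum_sub_distrib, ind_neg (fun h : A.Adj w w ∧ _ => A.loopless.1 w h.1),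
    ind_congr (q := A.Adj u w) ⟨fun h => h.1.symm, fun h => ⟨h.symm, A.loopless.1 u⟩⟩]
  rw [add_zero]
  congr 1
  apply sum_congr rfl
  intro y _
  rw [ind_diff, ind_congr (and_comm (a := A.Adj w y) (b := A.Adj u y))]

lemma dg_kel_u (A : SimpleGraph (Fin N)) {u w : Fin N} (huw : u ≠ w) :
    dg (kel A u w) u = ind (A.Adj u w) +
    ∑ y ∈ ((univ : Finset (Fin N)).erase u).erase w, ind (A.Adj u y ∧ A.Adj w y) := by
  rw [dg_u _ huw, ind_congr (kel_uw A huw)]
  congr 1
  apply sum_congr rfl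
  intro y hy
  obtain ⟨h1, h2⟩ := mem_rest hy
  exact ind_congr (kel_u A huw h1 h2)

lemma dg_kel_w (A : SimpleGraph (Fin N)) {u w : Fin N} (huw : u ≠ w) :
    dg (kel A u w) w = ind (A.Adj u w) +
    (∑ y ∈ ((univ : Finset (Fin N)).erase u).erase w, ind (A.Adj u y) +
    ∑ y ∈ ((univ : Finset (Fin N)).erase u).erase w, ind (A.Adj w y) -
    ∑ y ∈ ((univ : Finset (Fin N)).erase u).erase w, ind (A.Adj u y ∧ A.Adj w y)) := by
  rw [dg_w _ huw, ind_congr (kel_uw A huw), ← sum_add_distrib, ← sum_sub_distrib]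
  congr 1
  apply sum_congr rfl
  intro y hy
  obtain ⟨h1, h2⟩ := mem_rest hy
  rw [ind_congr (kel_w A huw h1 h2), ind_or]

/-- the degree sum is preserved -/
lemma kel_sum (A : SimpleGraph (Fin N)) {u w : Fin N} (huw : u ≠ w) :
    ∑ x, dg (kel A u w) x = ∑ x, dg A x := by
  rw [sum_split _ huw, sum_split (fun x => dg A x) huw, dg_kel_u A huw, dg_kel_w A huw,
    dg_u A huw, dg_w A huw]
  have h1 : ∑ x ∈ ((univ : Finset (Fin N)).erase u).erase w, dg (kel A u w) x =
      ∑ x ∈ ((univ : Finset (Fin N)).erase u).erase w, dg A x := by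
    apply sum_congr rfl
    intro x hx
    obtain ⟨h1, h2⟩ := mem_rest hx
    exact dg_kel_out A huw h1 h2
  rw [h1]
  ring

/-- the sum of the squares of the degrees increases -/
lemma kel_sq (A : SimpleGraph (Fin N)) {u w : Fin N} (huw : u ≠ w) :
    ∑ x, (dg (kel A u w) x) ^ 2 = ∑ x, (dg A x) ^ 2 +
      2 * (mu A u w - ind (A.Adj u w)) * (mu A w u - ind (A.Adj u w)) := by
  rw [sum_split _ huw, sum_split (fun x => (dg A x) ^ 2) huw, dg_kel_u A huw, dg_kel_w A huw,
    dg_u A huw, dg_w A huw, mu_uw A huw, mu_wu A huw]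
  have h1 : ∑ x ∈ ((univ : Finset (Fin N)).erase u).erase w, (dg (kel A u w) x) ^ 2 =
      ∑ x ∈ ((univ : Finset (Fin N)).erase u).erase w, (dg A x) ^ 2 := by
    apply sum_congr rfl
    intro x hx
    obtain ⟨h1, h2⟩ := mem_rest hx
    rw [dg_kel_out A huw h1 h2]
  rw [h1]
  ring

lemma mu_sub (A : SimpleGraph (Fin N)) {u w : Fin N} (huw : u ≠ w) :
    mu A w u - mu A u w = dg A w - dg A u := by
  rw [mu_uw A huw, mu_wu A huw, dg_u A huw, dg_w A huw]
  ring

lemma mu_ge (A : SimpleGraph (Fin N)) {u w : Fin N} (huw : u ≠ w) :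
    0 ≤ mu A u w - ind (A.Adj u w) := by
  rw [mu_uw A huw, add_sub_cancel_left, ← sum_sub_distrib]
  apply sum_nonneg
  intro y _
  rw [← ind_diff]
  exact ind_nonneg _

lemma dg_nonneg (A : SimpleGraph (Fin N)) (x : Fin N) : 0 ≤ dg A x :=
  sum_nonneg (fun _ _ => ind_nonneg _)

lemma dg_le (A : SimpleGraph (Fin N)) (x : Fin N) : dg A x ≤ N := by
  unfold dg
  calc _ ≤ ∑ _y : Fin N, (1 : ℝ) := sum_le_sum (fun _ _ => ind_le_one _)
    _ = N := by simp

variable {V : Type*} [Fintype V] [DecidableEq V] (G : SimpleGraph V)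

/-- homomorphism densities almost increase -/
lemma kel_hom (hN : 0 < N) (A : SimpleGraph (Fin N)) {u w : Fin N} (huw : u ≠ w) :
    TT G A.Adj (uw N) ≤ TT G (kel A u w).Adj (uw N) +
      4 * (Fintype.card V : ℝ) ^ 2 / (N : ℝ) ^ 2 := by
  classical
  set R : Finset (Fin N × Fin N) := ({u, w} : Finset (Fin N)) ×ˢ ({u, w} : Finset (Fin N))
    with hR
  have hR4 : R.card ≤ 4 := by
    rw [hR, card_product]
    have := card_le_two (a := u) (b := w)
    nlinarith
  have hmemR : ∀ a b : Fin N, (a, b) ∈ R ↔ (a = u ∨ a = w) ∧ (b = u ∨ b = w) := by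
    intro a b
    rw [hR, mem_product]
    simp
  rw [TT_uw, TT_uw]
  have hN0 : (0 : ℝ) < N := by exact_mod_cast hN
  set X := (homs G A.Adj).filter (fun φ => ¬ ∃ x y, x ≠ y ∧ (φ x, φ y) ∈ R) with hX
  have hsub : homs G A.Adj ⊆ X ∪
      (univ : Finset (V → Fin N)).filter (fun φ => ∃ x y, x ≠ y ∧ (φ x, φ y) ∈ R) := by
    intro φ hφ
    rw [mem_union, mem_filter, mem_filter]
    by_cases h : ∃ x y, x ≠ y ∧ (φ x, φ y) ∈ R
    · exact Or.inr ⟨mem_univ _, h⟩
    · exact Or.inl ⟨hφ, h⟩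
  have hXmem : ∀ φ, φ ∈ X ↔ IsHom G A.Adj φ ∧ ¬ ∃ x y, x ≠ y ∧ (φ x, φ y) ∈ R := by
    intro φ
    rw [hX, mem_filter]
    unfold homs
    rw [mem_filter]
    simp
  have hinj : X.card ≤ (homs G (kel A u w).Adj).card := by
    apply card_le_card_of_injOn
      (fun φ => if IsHom G (kel A u w).Adj φ then φ else (Equiv.swap u w) ∘ φ)
    · intro φ hφ
      rw [mem_coe, hXmem] at hφ
      obtain ⟨hA, hB⟩ := hφ
      unfold homs
      rw [mem_coe, mem_filter]
      refine ⟨mem_univ _, ?_⟩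
      simp only
      split_ifs with hh
      · exact hh
      · -- some vertex is mapped to u
        have hx0 : ∃ x0, φ x0 = u := by
          by_contra hno
          push Not at hno
          apply hh
          intro x y hxy
          exact Or.inl ⟨hA x y hxy, Or.inr ⟨hno x, hno y⟩⟩
        obtain ⟨x0, hx0⟩ := hx0
        have hother : ∀ z, φ z ≠ w := by
          intro z hz
          apply hB
          refine ⟨x0, z, ?_, ?_⟩
          · rintro rfl
            exact huw (hx0.symm.trans hz)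
          · rw [hmemR]
            exact ⟨Or.inl hx0, Or.inr hz⟩
        intro a b hab
        have hAab := hA a b hab
        simp only [Function.comp_apply]
        by_cases hau : φ a = u
        · right
          rw [Equiv.swap_apply_self, Equiv.swap_apply_self]
          exact ⟨hAab, Or.inl (by rw [hau, Equiv.swap_apply_left])⟩
        by_cases hbu : φ b = u
        · right
          rw [Equiv.swap_apply_self, Equiv.swap_apply_self]
          exact ⟨hAab, Or.inr (by rw [hbu, Equiv.swap_apply_left])⟩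
        rw [Equiv.swap_apply_of_ne_of_ne hau (hother a),
          Equiv.swap_apply_of_ne_of_ne hbu (hother b)]
        exact (kel_out A hau (hother a) hbu (hother b)).2 hAab
    · intro φ hφ ψ hψ heq
      rw [mem_coe, hXmem] at hφ hψ
      simp only at heq
      have key : ∀ φ ψ : V → Fin N, IsHom G A.Adj φ → IsHom G A.Adj ψ →
          φ = (Equiv.swap u w) ∘ ψ → IsHom G (kel A u w).Adj ψ := by
        intro φ ψ h1 h2 h3 a b hab
        left
        refine ⟨h2 a b hab, Or.inl ?_⟩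
        have := h1 a b hab
        rw [h3] at this
        exact this
      split_ifs at heq with c1 c2 c2
      · exact heq
      · exact absurd (key φ ψ hφ.1 hψ.1 heq) c2
      · exact absurd (key ψ φ hψ.1 hφ.1 heq.symm) c1
      · exact (Equiv.swap u w).injective.comp_left heq
  have h1 := (card_le_card hsub).trans (card_union_le _ _)
  have h2 := card_bad (V := V) R
  have h1' : ((homs G A.Adj).card : ℝ) ≤ (homs G (kel A u w).Adj).card +
      ((univ : Finset (V → Fin N)).filter (fun φ => ∃ x y, x ≠ y ∧ (φ x, φ y) ∈ R)).card := by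
    exact_mod_cast h1.trans (Nat.add_le_add_right hinj _)
  have h2' : (((univ : Finset (V → Fin N)).filter
      (fun φ => ∃ x y, x ≠ y ∧ (φ x, φ y) ∈ R)).card : ℝ) * (N : ℝ) ^ 2 ≤
      (Fintype.card V : ℝ) ^ 2 * ((R.card : ℝ) * (N : ℝ) ^ (Fintype.card V)) := by
    exact_mod_cast h2
  have hNv : (0 : ℝ) < (N : ℝ) ^ (Fintype.card V) := by positivity
  rw [div_le_iff₀ hNv, add_mul, div_mul_cancel₀ _ hNv.ne']
  refine h1'.trans ?_
  have hR4' : (R.card : ℝ) ≤ 4 := by exact_mod_cast hR4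
  have h3 : (((univ : Finset (V → Fin N)).filter
      (fun φ => ∃ x y, x ≠ y ∧ (φ x, φ y) ∈ R)).card : ℝ) ≤
      4 * (Fintype.card V : ℝ) ^ 2 / (N : ℝ) ^ 2 * (N : ℝ) ^ (Fintype.card V) := by
    rw [div_mul_eq_mul_div, le_div_iff₀ (by positivity)]
    calc _ ≤ _ := h2'
      _ ≤ (Fintype.card V : ℝ) ^ 2 * (4 * (N : ℝ) ^ (Fintype.card V)) := by gcongr
      _ = _ := by ring
  linarith

/-- a graph maximising the perturbed homomorphism density -/
lemma exists_good (hN : 0 < N) {ε : ℝ} (hε : 0 < ε) (A0 : SimpleGraph (Fin N)) :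
    ∃ A : SimpleGraph (Fin N), ∑ x, dg A x = ∑ x, dg A0 x ∧
      TT G A0.Adj (uw N) ≤ TT G A.Adj (uw N) + ε ∧
      ∀ u w : Fin N, u ≠ w → (mu A u w - ind (A.Adj u w)) * (mu A w u - ind (A.Adj u w)) ≤
        2 * (Fintype.card V : ℝ) ^ 2 * N / ε := by
  have hN0 : (0 : ℝ) < N := by exact_mod_cast hN
  set F : SimpleGraph (Fin N) → ℝ := fun A => TT G A.Adj (uw N) +
    ε * (∑ x, (dg A x) ^ 2) / (N : ℝ) ^ 3 with hF
  obtain ⟨A, hA, hmax⟩ := Set.exists_max_image
    ({A : SimpleGraph (Fin N) | ∑ x, dg A x = ∑ x, dg A0 x}) F (Set.toFinite _) ⟨A0, rfl⟩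
  refine ⟨A, hA, ?_, ?_⟩
  · have h1 := hmax A0 rfl
    rw [hF] at h1
    simp only at h1
    have h2 : 0 ≤ ε * (∑ x, (dg A0 x) ^ 2) / (N : ℝ) ^ 3 := by
      have : 0 ≤ ∑ x, (dg A0 x) ^ 2 := sum_nonneg (fun _ _ => sq_nonneg _)
      positivity
    have h3 : ε * (∑ x, (dg A x) ^ 2) / (N : ℝ) ^ 3 ≤ ε := by
      rw [div_le_iff₀ (by positivity)]
      apply mul_le_mul_of_nonneg_left _ hε.le
      calc ∑ x, (dg A x) ^ 2 ≤ ∑ _x : Fin N, (N : ℝ) ^ 2 := by
            apply sum_le_sum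
            intro x _
            exact pow_le_pow_left₀ (dg_nonneg A x) (dg_le A x) 2
        _ = (N : ℝ) ^ 3 := by
            rw [sum_const, card_univ, Fintype.card_fin, nsmul_eq_mul]; ring
    linarith
  · intro u w huw
    have h1 := hmax (kel A u w) (by
      show ∑ x, dg (kel A u w) x = ∑ x, dg A0 x
      rw [kel_sum A huw]; exact hA)
    rw [hF] at h1
    simp only at h1
    rw [kel_sq A huw] at h1
    have h2 := kel_hom G hN A huw
    set m := (mu A u w - ind (A.Adj u w)) * (mu A w u - ind (A.Adj u w)) with hm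
    have h3 : ε * (∑ x, (dg A x) ^ 2 + 2 * (mu A u w - ind (A.Adj u w)) *
        (mu A w u - ind (A.Adj u w))) / (N : ℝ) ^ 3 =
        ε * (∑ x, (dg A x) ^ 2) / (N : ℝ) ^ 3 + 2 * ε * m / (N : ℝ) ^ 3 := by
      rw [hm]; ring
    rw [h3] at h1
    have h4 : 2 * ε * m / (N : ℝ) ^ 3 ≤ 4 * (Fintype.card V : ℝ) ^ 2 / (N : ℝ) ^ 2 := by
      linarith
    rw [div_le_iff₀ (by positivity)] at h4
    rw [le_div_iff₀ hε]
    have h5 : 4 * (Fintype.card V : ℝ) ^ 2 / (N : ℝ) ^ 2 * (N : ℝ) ^ 3 =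
        4 * (Fintype.card V : ℝ) ^ 2 * N := by
      field_simp
    rw [h5] at h4
    linarith

end

end Pool.Agent.LibTGraph
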