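import Mathlib
import Pool.Agent.LibTGraph.Basic

namespace Pool.Agent.LibTGraph

open Finset

/-- functions of the form `a * exp (b t)` -/
def ExpForm (f : ℝ → ℝ) : Prop := ∃ a b : ℝ, 0 ≤ a ∧ ∀ t, f t = a * Real.exp (b * t)

lemma ExpForm.const {a : ℝ} (ha : 0 ≤ a) : ExpForm (fun _ => a) :=
  ⟨a, 0, ha, fun t => by simp⟩

lemma ExpForm.mul {f g : ℝ → ℝ} (hf : ExpForm f) (hg : ExpForm g) :
    ExpForm (fun t => f t * g t) := by
  obtain ⟨a, b, ha, h1⟩ := hf
  obtain ⟨a', b', ha', h2⟩ := hg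
  refine ⟨a * a', b + b', mul_nonneg ha ha', fun t => ?_⟩
  simp only [h1, h2]
  rw [add_mul, Real.exp_add]
  ring

lemma ExpForm.prod {ι : Type*} (s : Finset ι) (f : ι → ℝ → ℝ) (hf : ∀ i, ExpForm (f i)) :
    ExpForm (fun t => ∏ i ∈ s, f i t) := by
  classical
  induction s using Finset.induction_on with
  | empty => simpa using ExpForm.const (a := 1) (by norm_num)
  | insert a s ha ih =>
    simp only [Finset.prod_insert ha]
    exact (hf a).mul ih

lemma ExpForm.convexOn {f : ℝ → ℝ} (hf : ExpForm f) : ConvexOn ℝ Set.univ f := by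
  obtain ⟨a, b, ha, h1⟩ := hf
  have h2 : ConvexOn ℝ Set.univ (fun t : ℝ => Real.exp (b * t)) := by
    have := convexOn_exp.comp_linearMap (LinearMap.mulLeft ℝ b)
    simpa [Function.comp_def] using this
  have h3 := h2.smul ha
  have e : f = fun t => a • Real.exp (b * t) := by
    funext t
    rw [h1 t]
    simp
  rw [e]
  exact h3

section

variable {K : Type*} [Fintype K] [DecidableEq K] (rel : K → K → Prop) (i1 i2 j1 j2 : K)

/-- the hypotheses for a movable corner -/
structure Corner : Prop where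
  symm : ∀ a b, rel a b → rel b a
  i12 : i1 ≠ i2
  j12 : j1 ≠ j2
  i1j1 : i1 ≠ j1
  i1j2 : i1 ≠ j2
  i2j1 : i2 ≠ j1
  i2j2 : i2 ≠ j2
  r11 : rel i1 j1
  r12 : ¬ rel i1 j2
  r21 : ¬ rel i2 j1
  r22 : ¬ rel i2 j2
  hP : ∀ k, k ≠ j1 → k ≠ j2 → (rel i1 k ↔ rel i2 k)
  hQ : ∀ k, k ≠ i1 → k ≠ i2 → (rel j1 k ↔ rel j2 k)

/-- collapse the pairs -/
def col (k : K) : K := if k = i2 then i1 else if k = j2 then j1 else k

variable {rel i1 i2 j1 j2}

lemma col_col (h : Corner rel i1 i2 j1 j2) (k : K) : col i1 i2 j1 j2 (col i1 i2 j1 j2 k) =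
    col i1 i2 j1 j2 k := by
  have a1 := h.i12
  have a2 := h.j12
  have a3 := h.i1j2
  have a4 := h.i2j1
  unfold col
  by_cases h1 : k = i2
  · simp [h1, a1, a3]
  · by_cases h2 : k = j2
    · simp [h2, h.i2j2.symm, a4.symm, a2]
    · simp [h1, h2]

lemma rel_iff (h : Corner rel i1 i2 j1 j2) (a b : K) : rel a b ↔
    rel (col i1 i2 j1 j2 a) (col i1 i2 j1 j2 b) ∧
    (col i1 i2 j1 j2 a = i1 → col i1 i2 j1 j2 b = j1 → a = i1 ∧ b = j1) ∧
    (col i1 i2 j1 j2 a = j1 → col i1 i2 j1 j2 b = i1 → a = j1 ∧ b = i1) := by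
  have a1 := h.i12
  have a2 := h.j12
  have a3 := h.i1j1
  have a4 := h.i1j2
  have a5 := h.i2j1
  have a6 := h.i2j2
  have r11 := h.r11
  have r12 := h.r12
  have r21 := h.r21
  have r22 := h.r22
  have r11' := h.symm _ _ r11
  have r12' : ¬ rel j2 i1 := fun h' => r12 (h.symm _ _ h')
  have r21' : ¬ rel j1 i2 := fun h' => r21 (h.symm _ _ h')
  have r22' : ¬ rel j2 i2 := fun h' => r22 (h.symm _ _ h')
  have hP := h.hP
  have hQ := h.hQ
  have hP' : ∀ k, k ≠ j1 → k ≠ j2 → (rel k i1 ↔ rel k i2) := fun k h1 h2 =>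
    ⟨fun h' => h.symm _ _ ((hP k h1 h2).1 (h.symm _ _ h')),
      fun h' => h.symm _ _ ((hP k h1 h2).2 (h.symm _ _ h'))⟩
  have hQ' : ∀ k, k ≠ i1 → k ≠ i2 → (rel k j1 ↔ rel k j2) := fun k h1 h2 =>
    ⟨fun h' => h.symm _ _ ((hQ k h1 h2).1 (h.symm _ _ h')),
      fun h' => h.symm _ _ ((hQ k h1 h2).2 (h.symm _ _ h'))⟩
  have c1 : col i1 i2 j1 j2 i1 = i1 := by unfold col; simp [a1, a4]
  have c2 : col i1 i2 j1 j2 i2 = i1 := by unfold col; simp
  have c3 : col i1 i2 j1 j2 j1 = j1 := by unfold col; simp [a5.symm, a2]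
  have c4 : col i1 i2 j1 j2 j2 = j1 := by unfold col; simp [a6.symm]
  have c5 : ∀ k, k ≠ i2 → k ≠ j2 → col i1 i2 j1 j2 k = k := by
    intro k h1 h2; unfold col; simp [h1, h2]
  by_cases ha1 : a = i1
  · subst ha1
    by_cases hb1 : b = a
    · subst hb1; simp [c1, a3]
    by_cases hb2 : b = i2
    · subst hb2; simp [c1, c2, a3, (hP' a a3 a4)]
    by_cases hb3 : b = j1
    · subst hb3; simp [c1, c3, a3, r11]
    by_cases hb4 : b = j2
    · subst hb4; simp [c1, c4, a3, r11, r12, a2.symm]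
    · simp [c1, c5 b hb2 hb4, a3, hb3]
  by_cases ha2 : a = i2
  · subst ha2
    by_cases hb1 : b = i1
    · subst hb1; simp [c1, c2, a3, (hP b a3 a4)]
    by_cases hb2 : b = a
    · subst hb2; simp only [c2]; simp [a3, (hP b a5 a6).symm, (hP' i1 a3 a4)]
    by_cases hb3 : b = j1
    · subst hb3; simp [c2, c3, a3, r21, a1.symm]
    by_cases hb4 : b = j2
    · subst hb4; simp [c2, c4, a3, r22, a1.symm]
    · simp [c2, c5 b hb2 hb4, a3, hb3, (hP b hb3 hb4)]
  by_cases ha3 : a = j1
  · subst ha3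
    by_cases hb1 : b = i1
    · subst hb1; simp [c1, c3, a3.symm, r11']
    by_cases hb2 : b = i2
    · subst hb2; simp [c2, c3, a3.symm, r21', a1.symm]
    by_cases hb3 : b = a
    · subst hb3; simp [c3, a3.symm]
    by_cases hb4 : b = j2
    · subst hb4; simp [c3, c4, a3.symm, (hQ' a a3.symm a5.symm)]
    · simp [c3, c5 b hb2 hb4, a3.symm, hb1]
  by_cases ha4 : a = j2
  · subst ha4
    by_cases hb1 : b = i1
    · subst hb1; simp [c1, c4, a3.symm, r12', a2.symm]
    by_cases hb2 : b = i2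
    · subst hb2; simp [c2, c4, a3.symm, r22', a2.symm]
    by_cases hb3 : b = j1
    · subst hb3; simp [c3, c4, a3.symm, (hQ b a3.symm a5.symm)]
    by_cases hb4 : b = a
    · subst hb4; simp only [c4]; simp [a3.symm, (hQ b a4.symm a6.symm).symm, (hQ' j1 a3.symm a5.symm)]
    · simp [c4, c5 b hb2 hb4, a3.symm, hb1, (hQ b hb1 hb2)]
  · have c6 := c5 a ha2 ha4
    by_cases hb1 : b = i1
    · subst hb1; simp [c1, c6, ha1, ha3]
    by_cases hb2 : b = i2
    · subst hb2; simp [c2, c6, ha1, ha3, (hP' a ha3 ha4)]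
    by_cases hb3 : b = j1
    · subst hb3; simp [c3, c6, ha1, ha3]
    by_cases hb4 : b = j2
    · subst hb4; simp [c4, c6, ha1, ha3, (hQ' a ha1 ha2)]
    · simp [c6, c5 b hb2 hb4, ha1, ha3]

variable {V : Type*} [Fintype V] [DecidableEq V] (G : SimpleGraph V)

open scoped Classical in
/-- allowed classes -/
noncomputable def Al (i1 i2 j1 j2 : K) (ψ : V → K) (x : V) : Finset K :=
  if ψ x = i1 then (if ∃ y, G.Adj x y ∧ ψ y = j1 then {i1} else {i1, i2}) else
  if ψ x = j1 then (if ∃ y, G.Adj x y ∧ ψ y = i1 then {j1} else {j1, j2}) else {ψ x}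

lemma fiber_iff (h : Corner rel i1 i2 j1 j2) (ψ : V → K)
    (hψ : (fun x => col i1 i2 j1 j2 (ψ x)) = ψ) (hh : IsHom G rel ψ) (φ : V → K) :
    ((fun x => col i1 i2 j1 j2 (φ x)) = ψ ∧ IsHom G rel φ) ↔
      φ ∈ Fintype.piFinset (Al G i1 i2 j1 j2 ψ) := by
  classical
  have a1 := h.i12
  have a2 := h.j12
  have a3 := h.i1j1
  have a4 := h.i1j2
  have a5 := h.i2j1
  have a6 := h.i2j2
  have ci1 : ∀ k, col i1 i2 j1 j2 k = i1 → k = i1 ∨ k = i2 := by
    intro k hk
    unfold col at hk
    by_cases h1 : k = i2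
    · exact Or.inr h1
    · by_cases h2 : k = j2
      · simp [h2, a6.symm, a3.symm] at hk
      · simp [h1, h2] at hk
        exact Or.inl hk
  have cj1 : ∀ k, col i1 i2 j1 j2 k = j1 → k = j1 ∨ k = j2 := by
    intro k hk
    unfold col at hk
    by_cases h1 : k = i2
    · simp [h1, a3] at hk
    · by_cases h2 : k = j2
      · exact Or.inr h2
      · simp [h1, h2] at hk
        exact Or.inl hk
  have co : ∀ k, col i1 i2 j1 j2 k ≠ i1 → col i1 i2 j1 j2 k ≠ j1 → k = col i1 i2 j1 j2 k := by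
    intro k h1 h2
    unfold col at h1 h2 ⊢
    by_cases h3 : k = i2
    · simp [h3] at h1
    · by_cases h4 : k = j2
      · simp [h4, a6.symm] at h2
      · simp [h3, h4]
  rw [Fintype.mem_piFinset]
  constructor
  · rintro ⟨hc, hφ⟩ x
    have hcx : ∀ x, col i1 i2 j1 j2 (φ x) = ψ x := fun x => congrFun hc x
    unfold Al
    by_cases h1 : ψ x = i1
    · rw [if_pos h1]
      by_cases h2 : ∃ y, G.Adj x y ∧ ψ y = j1
      · rw [if_pos h2]
        obtain ⟨y, hxy, hy⟩ := h2
        have := ((rel_iff h _ _).1 (hφ x y hxy)).2.1 ((hcx x).trans h1) ((hcx y).trans hy)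
        simp [this.1]
      · rw [if_neg h2]
        rcases ci1 _ ((hcx x).trans h1) with h3 | h3 <;> simp [h3]
    · rw [if_neg h1]
      by_cases h2 : ψ x = j1
      · rw [if_pos h2]
        by_cases h3 : ∃ y, G.Adj x y ∧ ψ y = i1
        · rw [if_pos h3]
          obtain ⟨y, hxy, hy⟩ := h3
          have := ((rel_iff h _ _).1 (hφ x y hxy)).2.2 ((hcx x).trans h2) ((hcx y).trans hy)
          simp [this.1]
        · rw [if_neg h3]
          rcases cj1 _ ((hcx x).trans h2) with h4 | h4 <;> simp [h4]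
      · rw [if_neg h2]
        have := co (φ x) (by rw [hcx x]; exact h1) (by rw [hcx x]; exact h2)
        rw [hcx x] at this
        simp [this]
  · intro hφ
    have c1 : col i1 i2 j1 j2 i1 = i1 := by unfold col; simp [a1, a4]
    have c2 : col i1 i2 j1 j2 i2 = i1 := by unfold col; simp
    have c3 : col i1 i2 j1 j2 j1 = j1 := by unfold col; simp [a5.symm, a2]
    have c4 : col i1 i2 j1 j2 j2 = j1 := by unfold col; simp [a6.symm]
    have hcx : ∀ x, col i1 i2 j1 j2 (φ x) = ψ x := by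
      intro x
      have hx := hφ x
      unfold Al at hx
      by_cases h1 : ψ x = i1
      · rw [if_pos h1] at hx
        have : φ x = i1 ∨ φ x = i2 := by
          split_ifs at hx
          · left; simpa using hx
          · simpa using hx
        rcases this with h3 | h3 <;> rw [h3, h1] <;> assumption
      · rw [if_neg h1] at hx
        by_cases h2 : ψ x = j1
        · rw [if_pos h2] at hx
          have : φ x = j1 ∨ φ x = j2 := by
            split_ifs at hx
            · left; simpa using hx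
            · simpa using hx
          rcases this with h3 | h3 <;> rw [h3, h2] <;> assumption
        · rw [if_neg h2] at hx
          have : φ x = ψ x := by simpa using hx
          rw [this]
          exact congrFun hψ x
    refine ⟨funext hcx, ?_⟩
    intro x y hxy
    rw [rel_iff h, hcx x, hcx y]
    refine ⟨hh x y hxy, ?_, ?_⟩
    · intro h1 h2
      have hx := hφ x
      have hy := hφ y
      unfold Al at hx hy
      rw [if_pos h1, if_pos ⟨y, hxy, h2⟩] at hx
      rw [if_neg (by rw [h2]; exact a3.symm), if_pos h2, if_pos ⟨x, hxy.symm, h1⟩] at hy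
      exact ⟨by simpa using hx, by simpa using hy⟩
    · intro h1 h2
      have hx := hφ x
      have hy := hφ y
      unfold Al at hx hy
      rw [if_neg (by rw [h1]; exact a3.symm), if_pos h1, if_pos ⟨y, hxy, h2⟩] at hx
      rw [if_pos h2, if_pos ⟨x, hxy.symm, h1⟩] at hy
      exact ⟨by simpa using hx, by simpa using hy⟩

open scoped Classical in
lemma TT_eq_col (h : Corner rel i1 i2 j1 j2) (w : K → ℝ) :
    TT G rel w = ∑ ψ : V → K, if ((fun x => col i1 i2 j1 j2 (ψ x)) = ψ ∧ IsHom G rel ψ) then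
      ∏ x, ∑ k ∈ Al G i1 i2 j1 j2 ψ x, w k else 0 := by
  unfold TT
  rw [← Finset.sum_fiberwise (Finset.univ : Finset (V → K))
    (fun φ : V → K => (fun x => col i1 i2 j1 j2 (φ x)))]
  apply Finset.sum_congr rfl
  intro ψ _
  by_cases hψ : (fun x => col i1 i2 j1 j2 (ψ x)) = ψ ∧ IsHom G rel ψ
  · rw [if_pos hψ, Finset.prod_univ_sum]
    rw [← Finset.sum_filter, Finset.filter_filter]
    apply Finset.sum_congr
    · ext φ
      rw [← fiber_iff G h ψ hψ.1 hψ.2 φ]
      simp
    · intro φ _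
      rfl
  · rw [if_neg hψ]
    apply Finset.sum_eq_zero
    intro φ hφ
    rw [Finset.mem_filter] at hφ
    rw [if_neg]
    intro hh
    apply hψ
    constructor
    · rw [← hφ.2]
      funext x
      exact col_col h _
    · rw [← hφ.2]
      intro x y hxy
      exact ((rel_iff h _ _).1 (hh x y hxy)).1

/-- the path of weights -/
noncomputable def wt (i1 i2 j1 j2 : K) (w : K → ℝ) (P H κ t : ℝ) (k : K) : ℝ :=
  if k = i1 then Real.exp t else if k = i2 then P - Real.exp t else
  if k = j1 then κ * Real.exp (-t) else if k = j2 then H - κ * Real.exp (-t) else w k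

lemma wt_expForm (h : Corner rel i1 i2 j1 j2) (w : K → ℝ) (hw : ∀ k, 0 ≤ w k) {P H κ : ℝ}
    (hP : 0 ≤ P) (hH : 0 ≤ H) (hκ : 0 ≤ κ) (ψ : V → K) (hψ : (fun x => col i1 i2 j1 j2 (ψ x)) = ψ)
    (x : V) : ExpForm (fun t => ∑ k ∈ Al G i1 i2 j1 j2 ψ x, wt i1 i2 j1 j2 w P H κ t k) := by
  classical
  have a1 := h.i12
  have a2 := h.j12
  have a3 := h.i1j1
  have a4 := h.i1j2
  have a5 := h.i2j1
  have a6 := h.i2j2
  have w1 : ∀ t, wt i1 i2 j1 j2 w P H κ t i1 = Real.exp t := by intro t; simp [wt]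
  have w2 : ∀ t, wt i1 i2 j1 j2 w P H κ t i2 = P - Real.exp t := by
    intro t; simp [wt, a1.symm]
  have w3 : ∀ t, wt i1 i2 j1 j2 w P H κ t j1 = κ * Real.exp (-t) := by
    intro t; simp [wt, a3.symm, a5.symm]
  have w4 : ∀ t, wt i1 i2 j1 j2 w P H κ t j2 = H - κ * Real.exp (-t) := by
    intro t; simp [wt, a4.symm, a6.symm, a2.symm]
  unfold Al
  by_cases h1 : ψ x = i1
  · simp only [if_pos h1]
    by_cases h2 : ∃ y, G.Adj x y ∧ ψ y = j1
    · simp only [if_pos h2, Finset.sum_singleton, w1]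
      exact ⟨1, 1, by norm_num, fun t => by simp⟩
    · simp only [if_neg h2, Finset.sum_pair a1, w1, w2]
      exact ⟨P, 0, hP, fun t => by simp⟩
  · simp only [if_neg h1]
    by_cases h2 : ψ x = j1
    · simp only [if_pos h2]
      by_cases h3 : ∃ y, G.Adj x y ∧ ψ y = i1
      · simp only [if_pos h3, Finset.sum_singleton, w3]
        exact ⟨κ, -1, hκ, fun t => by simp⟩
      · simp only [if_neg h3, Finset.sum_pair a2, w3, w4]
        exact ⟨H, 0, hH, fun t => by simp⟩
    · simp only [if_neg h2, Finset.sum_singleton]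
      have h3 : ψ x ≠ i2 := by
        intro h3
        have := congrFun hψ x
        simp only [h3] at this
        unfold col at this
        simp [a1] at this
      have h4 : ψ x ≠ j2 := by
        intro h4
        have := congrFun hψ x
        simp only [h4] at this
        unfold col at this
        simp [a6.symm, a2] at this
      refine ⟨w (ψ x), 0, hw _, fun t => ?_⟩
      simp [wt, h1, h2, h3, h4]

lemma TT_wt_convex (h : Corner rel i1 i2 j1 j2) (w : K → ℝ) (hw : ∀ k, 0 ≤ w k) {P H κ : ℝ}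
    (hP : 0 ≤ P) (hH : 0 ≤ H) (hκ : 0 ≤ κ) :
    ConvexOn ℝ Set.univ (fun t => TT G rel (wt i1 i2 j1 j2 w P H κ t)) := by
  classical
  have e : (fun t => TT G rel (wt i1 i2 j1 j2 w P H κ t)) = fun t => ∑ ψ : V → K,
      if ((fun x => col i1 i2 j1 j2 (ψ x)) = ψ ∧ IsHom G rel ψ) then
      ∏ x, ∑ k ∈ Al G i1 i2 j1 j2 ψ x, wt i1 i2 j1 j2 w P H κ t k else 0 := by
    funext t
    rw [TT_eq_col G h]
  rw [e]
  have key : ∀ (s : Finset (V → K)), ConvexOn ℝ Set.univ (fun t => ∑ ψ ∈ s,
      if ((fun x => col i1 i2 j1 j2 (ψ x)) = ψ ∧ IsHom G rel ψ) then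
      ∏ x, ∑ k ∈ Al G i1 i2 j1 j2 ψ x, wt i1 i2 j1 j2 w P H κ t k else 0) := by
    intro s
    induction s using Finset.induction_on with
    | empty => simpa using convexOn_const (0 : ℝ) convex_univ
    | insert ψ s hs ih =>
      simp only [Finset.sum_insert hs]
      apply ConvexOn.add _ ih
      by_cases hψ : (fun x => col i1 i2 j1 j2 (ψ x)) = ψ ∧ IsHom G rel ψ
      · simp only [if_pos hψ]
        apply ExpForm.convexOn
        exact ExpForm.prod _ _ (fun x => wt_expForm G h w hw hP hH hκ ψ hψ.1 x)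
      · simp only [if_neg hψ]
        exact convexOn_const (0 : ℝ) convex_univ
  exact key _

lemma DD_wt (h : Corner rel i1 i2 j1 j2) (w : K → ℝ) (P H κ t s : ℝ) :
    DD rel (wt i1 i2 j1 j2 w P H κ t) = DD rel (wt i1 i2 j1 j2 w P H κ s) := by
  classical
  have key : ∀ t : ℝ, DD rel (wt i1 i2 j1 j2 w P H κ t) =
      ∑ ψ : Fin 2 → K, if ((fun x => col i1 i2 j1 j2 (ψ x)) = ψ ∧
        IsHom (⊤ : SimpleGraph (Fin 2)) rel ψ) then
      (if ψ 0 = i1 then (if ψ 1 = j1 then κ else P * (∑ k ∈ Al (⊤ : SimpleGraph (Fin 2)) i1 i2 j1 j2 ψ 1, wt i1 i2 j1 j2 w P H κ 0 k))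
       else if ψ 0 = j1 then (if ψ 1 = i1 then κ else H * (∑ k ∈ Al (⊤ : SimpleGraph (Fin 2)) i1 i2 j1 j2 ψ 1, wt i1 i2 j1 j2 w P H κ 0 k))
       else w (ψ 0) * (∑ k ∈ Al (⊤ : SimpleGraph (Fin 2)) i1 i2 j1 j2 ψ 1, wt i1 i2 j1 j2 w P H κ 0 k)) else 0 := by
    intro t
    rw [DD_eq_TT rel h.symm, TT_eq_col _ h]
    apply Finset.sum_congr rfl
    intro ψ _
    by_cases hψ : (fun x => col i1 i2 j1 j2 (ψ x)) = ψ ∧ IsHom (⊤ : SimpleGraph (Fin 2)) rel ψ
    · rw [if_pos hψ, if_pos hψ, Fin.prod_univ_two]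
      have a1 := h.i12
      have a2 := h.j12
      have a3 := h.i1j1
      have a4 := h.i1j2
      have a5 := h.i2j1
      have a6 := h.i2j2
      have w1 : ∀ t, wt i1 i2 j1 j2 w P H κ t i1 = Real.exp t := by intro t; simp [wt]
      have w2 : ∀ t, wt i1 i2 j1 j2 w P H κ t i2 = P - Real.exp t := by
        intro t; simp [wt, a1.symm]
      have w3 : ∀ t, wt i1 i2 j1 j2 w P H κ t j1 = κ * Real.exp (-t) := by
        intro t; simp [wt, a3.symm, a5.symm]
      have w4 : ∀ t, wt i1 i2 j1 j2 w P H κ t j2 = H - κ * Real.exp (-t) := by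
        intro t; simp [wt, a4.symm, a6.symm, a2.symm]
      have hfix : ∀ x, ψ x ≠ i2 ∧ ψ x ≠ j2 := by
        intro x
        constructor
        · intro h3
          have := congrFun hψ.1 x
          simp only [h3] at this
          unfold col at this
          simp [a1] at this
        · intro h4
          have := congrFun hψ.1 x
          simp only [h4] at this
          unfold col at this
          simp [a6.symm, a2] at this
      have ex01 : ∀ q : K, (∃ y, (⊤ : SimpleGraph (Fin 2)).Adj 0 y ∧ ψ y = q) ↔ ψ 1 = q := by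
        intro q
        constructor
        · rintro ⟨y, hy, hq⟩
          fin_cases y
          · simp at hy
          · exact hq
        · intro hq
          exact ⟨1, by simp, hq⟩
      have ex10 : ∀ q : K, (∃ y, (⊤ : SimpleGraph (Fin 2)).Adj 1 y ∧ ψ y = q) ↔ ψ 0 = q := by
        intro q
        constructor
        · rintro ⟨y, hy, hq⟩
          fin_cases y
          · exact hq
          · simp at hy
        · intro hq
          exact ⟨0, by simp, hq⟩
      -- sum over the second vertex does not depend on `t` unless it is matched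
      have hsec : ¬ (ψ 0 = i1 ∧ ψ 1 = j1) → ¬ (ψ 0 = j1 ∧ ψ 1 = i1) →
          ∑ k ∈ Al (⊤ : SimpleGraph (Fin 2)) i1 i2 j1 j2 ψ 1, wt i1 i2 j1 j2 w P H κ t k =
          ∑ k ∈ Al (⊤ : SimpleGraph (Fin 2)) i1 i2 j1 j2 ψ 1, wt i1 i2 j1 j2 w P H κ 0 k := by
        intro n1 n2
        unfold Al
        simp only [ex10]
        by_cases b1 : ψ 1 = i1
        · have b2 : ψ 0 ≠ j1 := fun b2 => n2 ⟨b2, b1⟩
          simp only [if_pos b1, if_neg b2, Finset.sum_pair a1, w1, w2]
          ring
        · simp only [if_neg b1]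
          by_cases b3 : ψ 1 = j1
          · have b2 : ψ 0 ≠ i1 := fun b2 => n1 ⟨b2, b3⟩
            simp only [if_pos b3, if_neg b2, Finset.sum_pair a2, w3, w4]
            ring
          · simp only [if_neg b3, Finset.sum_singleton]
            simp [wt, b1, b3, (hfix 1).1, (hfix 1).2]
      by_cases b0 : ψ 0 = i1
      · rw [if_pos b0]
        by_cases b1 : ψ 1 = j1
        · rw [if_pos b1]
          have e0 : ∑ k ∈ Al (⊤ : SimpleGraph (Fin 2)) i1 i2 j1 j2 ψ 0,
              wt i1 i2 j1 j2 w P H κ t k = Real.exp t := by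
            unfold Al
            simp only [ex01, if_pos b0, if_pos b1, Finset.sum_singleton, w1]
          have e1 : ∑ k ∈ Al (⊤ : SimpleGraph (Fin 2)) i1 i2 j1 j2 ψ 1,
              wt i1 i2 j1 j2 w P H κ t k = κ * Real.exp (-t) := by
            unfold Al
            have b2 : ψ 1 ≠ i1 := by rw [b1]; exact a3.symm
            simp only [ex10, if_neg b2, if_pos b0, if_pos b1, Finset.sum_singleton, w3]
          rw [e0, e1, Real.exp_neg]
          field_simp
        · rw [if_neg b1, ← hsec (fun h' => b1 h'.2) (fun h' => a3 (b0.symm.trans h'.1))]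
          congr 1
          unfold Al
          simp only [ex01, if_pos b0, if_neg b1, Finset.sum_pair a1, w1, w2]
          ring
      · rw [if_neg b0]
        by_cases b2 : ψ 0 = j1
        · rw [if_pos b2]
          by_cases b1 : ψ 1 = i1
          · rw [if_pos b1]
            have e0 : ∑ k ∈ Al (⊤ : SimpleGraph (Fin 2)) i1 i2 j1 j2 ψ 0,
                wt i1 i2 j1 j2 w P H κ t k = κ * Real.exp (-t) := by
              unfold Al
              simp only [ex01, if_neg b0, if_pos b2, if_pos b1, Finset.sum_singleton, w3]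
            have e1 : ∑ k ∈ Al (⊤ : SimpleGraph (Fin 2)) i1 i2 j1 j2 ψ 1,
                wt i1 i2 j1 j2 w P H κ t k = Real.exp t := by
              unfold Al
              simp only [ex10, if_pos b2, if_pos b1, Finset.sum_singleton, w1]
            rw [e0, e1, Real.exp_neg]
            field_simp
          · rw [if_neg b1, ← hsec (fun h' => b0 h'.1) (fun h' => b1 h'.2)]
            congr 1
            unfold Al
            simp only [ex01, if_neg b0, if_pos b2, if_neg b1, Finset.sum_pair a2, w3, w4]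
            ring
        · rw [if_neg b2, ← hsec (fun h' => b0 h'.1) (fun h' => b2 h'.1)]
          congr 1
          unfold Al
          simp only [if_neg b0, if_neg b2, Finset.sum_singleton]
          simp [wt, b0, b2, (hfix 0).1, (hfix 0).2]
    · rw [if_neg hψ, if_neg hψ]
  rw [key t, key s]

lemma wt_sum (h : Corner rel i1 i2 j1 j2) (w : K → ℝ) (κ t : ℝ) :
    ∑ k, wt i1 i2 j1 j2 w (w i1 + w i2) (w j1 + w j2) κ t k = ∑ k, w k := by
  classical
  have a1 := h.i12
  have a2 := h.j12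
  have a3 := h.i1j1
  have a4 := h.i1j2
  have a5 := h.i2j1
  have a6 := h.i2j2
  have hsplit : ∀ f : K → ℝ, ∑ k, f k =
      f i1 + (f i2 + (f j1 + (f j2 + ∑ k ∈ (((Finset.univ.erase i1).erase i2).erase j1).erase j2,
        f k))) := by
    intro f
    rw [← Finset.add_sum_erase _ f (Finset.mem_univ i1)]
    rw [← Finset.add_sum_erase _ f (show i2 ∈ Finset.univ.erase i1 by simp [a1.symm])]
    rw [← Finset.add_sum_erase _ f
      (show j1 ∈ (Finset.univ.erase i1).erase i2 by simp [a3.symm, a5.symm])]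
    rw [← Finset.add_sum_erase _ f
      (show j2 ∈ ((Finset.univ.erase i1).erase i2).erase j1 by
        simp [a4.symm, a6.symm, a2.symm])]
  rw [hsplit (wt i1 i2 j1 j2 w (w i1 + w i2) (w j1 + w j2) κ t), hsplit w]
  have e : ∑ k ∈ (((Finset.univ.erase i1).erase i2).erase j1).erase j2,
      wt i1 i2 j1 j2 w (w i1 + w i2) (w j1 + w j2) κ t k =
      ∑ k ∈ (((Finset.univ.erase i1).erase i2).erase j1).erase j2, w k := by
    apply Finset.sum_congr rfl
    intro k hk
    simp only [Finset.mem_erase, Finset.mem_univ, and_true] at hk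
    simp [wt, hk.1, hk.2.1, hk.2.2.1, hk.2.2.2]
  rw [e]
  simp only [wt, if_true, a1.symm, a3.symm, a4.symm, a5.symm, a6.symm, a2.symm, if_false]
  ring

/-- moving a corner to one of its extreme positions -/
lemma corner_move (h : Corner rel i1 i2 j1 j2) (w : K → ℝ) (hw : Simp w) (h1 : 0 < w i1)
    (h2 : 0 < w j1) :
    ∃ w' : K → ℝ, Simp w' ∧ DD rel w' = DD rel w ∧ TT G rel w ≤ TT G rel w' ∧
      (w' i2 = 0 ∨ w' j2 = 0) := by
  classical
  have a1 := h.i12
  have a2 := h.j12
  have a3 := h.i1j1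
  have a4 := h.i1j2
  have a5 := h.i2j1
  have a6 := h.i2j2
  set P := w i1 + w i2 with hP
  set H := w j1 + w j2 with hH
  set κ := w i1 * w j1 with hκ
  have hw2 := hw.nonneg i2
  have hw4 := hw.nonneg j2
  have hP0 : 0 < P := by linarith
  have hH0 : 0 < H := by linarith
  have hκ0 : 0 < κ := by positivity
  have hconv := TT_wt_convex G h w hw.nonneg hP0.le hH0.le hκ0.le
  -- the starting point
  have hstart : wt i1 i2 j1 j2 w P H κ (Real.log (w i1)) = w := by
    funext k
    unfold wt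
    rw [Real.exp_neg, Real.exp_log h1]
    split_ifs with c1 c2 c3 c4
    · rw [c1]
    · rw [c2, hP]; ring
    · rw [c3, hκ]; field_simp
    · rw [c4, hκ, hH]; field_simp; ring
    · rfl
  have hle0 : Real.log (κ / H) ≤ Real.log (w i1) := by
    apply Real.log_le_log (by positivity)
    rw [div_le_iff₀ hH0, hκ, hH]
    nlinarith
  have hle1 : Real.log (w i1) ≤ Real.log P := by
    apply Real.log_le_log h1
    linarith
  have hmax := (hconv.subset (Set.subset_univ (Set.Icc (Real.log (κ / H)) (Real.log P)))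
    (convex_Icc _ _)).le_max_of_mem_Icc (x := Real.log (κ / H)) (y := Real.log P)
    ⟨le_refl _, hle0.trans hle1⟩ ⟨hle0.trans hle1, le_refl _⟩ ⟨hle0, hle1⟩
  simp only [hstart] at hmax
  have hval : ∀ t, Real.log (κ / H) ≤ t → t ≤ Real.log P →
      ∀ k, 0 ≤ wt i1 i2 j1 j2 w P H κ t k := by
    intro t ht0 ht1 k
    have e1 : Real.exp t ≤ P := by
      calc Real.exp t ≤ Real.exp (Real.log P) := Real.exp_le_exp.2 ht1
        _ = P := Real.exp_log hP0
    have e2 : κ / H ≤ Real.exp t := by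
      calc κ / H = Real.exp (Real.log (κ / H)) := (Real.exp_log (by positivity)).symm
        _ ≤ Real.exp t := Real.exp_le_exp.2 ht0
    have e3 : κ * Real.exp (-t) ≤ H := by
      rw [Real.exp_neg, ← div_eq_mul_inv, div_le_iff₀ (Real.exp_pos t)]
      rw [div_le_iff₀ hH0] at e2
      linarith
    unfold wt
    split_ifs
    · exact (Real.exp_pos _).le
    · linarith
    · have := Real.exp_pos (-t)
      positivity
    · linarith
    · exact hw.nonneg k
  have hD : ∀ t, DD rel (wt i1 i2 j1 j2 w P H κ t) = DD rel w := by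
    intro t
    rw [DD_wt h w P H κ t (Real.log (w i1)), hstart]
  rcases le_total (TT G rel (wt i1 i2 j1 j2 w P H κ (Real.log (κ / H))))
    (TT G rel (wt i1 i2 j1 j2 w P H κ (Real.log P))) with hc | hc
  · rw [max_eq_right hc] at hmax
    refine ⟨wt i1 i2 j1 j2 w P H κ (Real.log P), ⟨hval _ (hle0.trans hle1) le_rfl, ?_⟩, hD _,
      hmax, Or.inl ?_⟩
    · rw [wt_sum h w κ _]
      exact hw.sum
    · unfold wt
      rw [if_neg a1.symm, if_pos rfl, Real.exp_log hP0]
      ring
  · rw [max_eq_left hc] at hmax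
    refine ⟨wt i1 i2 j1 j2 w P H κ (Real.log (κ / H)), ⟨hval _ le_rfl (hle0.trans hle1), ?_⟩, hD _,
      hmax, Or.inr ?_⟩
    · rw [wt_sum h w κ _]
      exact hw.sum
    · unfold wt
      rw [if_neg a4.symm, if_neg a6.symm, if_neg a2.symm, if_pos rfl, Real.exp_neg,
        Real.exp_log (by positivity)]
      field_simp
      ring

end

/-- the corner of the canonical structure -/
lemma can_corner (M : ℕ) (hM : 5 ≤ M) :
    Corner (can M) ⟨1, by omega⟩ ⟨2, by omega⟩ ⟨M - 2, by omega⟩ ⟨M - 1, by omega⟩ where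
  symm := can_symm M
  i12 := by simp
  j12 := by simp only [ne_eq, Fin.mk.injEq]; omega
  i1j1 := by simp only [ne_eq, Fin.mk.injEq]; omega
  i1j2 := by simp only [ne_eq, Fin.mk.injEq]; omega
  i2j1 := by simp only [ne_eq, Fin.mk.injEq]; omega
  i2j2 := by simp only [ne_eq, Fin.mk.injEq]; omega
  r11 := by unfold can; simp only; omega
  r12 := by unfold can; simp only; omega
  r21 := by unfold can; simp only; omega
  r22 := by unfold can; simp only; omega
  hP := by
    intro k h1 h2
    have h1' : (k : ℕ) ≠ M - 2 := fun h => h1 (Fin.ext h)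
    have h2' : (k : ℕ) ≠ M - 1 := fun h => h2 (Fin.ext h)
    have := k.2
    unfold can
    simp only
    omega
  hQ := by
    intro k h1 h2
    have h1' : (k : ℕ) ≠ 1 := fun h => h1 (Fin.ext h)
    have h2' : (k : ℕ) ≠ 2 := fun h => h2 (Fin.ext h)
    have := k.2
    unfold can
    simp only
    omega

end Pool.Agent.LibTGraph
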