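import Pool.Agent.LibTGraph.Rect
import Pool.Agent.LibTGraph.Four

namespace Pool.Agent.LibTGraph

section

variable {V : Type*} [Fintype V] [DecidableEq V] (G : SimpleGraph V)

/-- every canonical threshold structure is dominated by a three-class one -/
theorem reduce (M : ℕ) : ∀ w : Fin M → ℝ, Simp w → ∃ w' : Fin 3 → ℝ, Simp w' ∧
    DD (can 3) w' = DD (can M) w ∧ TT G (can M) w ≤ TT G (can 3) w' := by
  induction M using Nat.strong_induction_on with
  | _ M ih =>
    intro w hw
    have hdrop : ∀ (w1 : Fin M → ℝ), Simp w1 → DD (can M) w1 = DD (can M) w →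
        TT G (can M) w ≤ TT G (can M) w1 → ∀ (k : ℕ) (_ : 1 ≤ k) (hkM : k < M),
        w1 ⟨k, hkM⟩ = 0 → ∃ w' : Fin 3 → ℝ, Simp w' ∧
        DD (can 3) w' = DD (can M) w ∧ TT G (can M) w ≤ TT G (can 3) w' := by
      intro w1 hw1 hD hT k hk hkM h0
      obtain ⟨M', hM', w2, hw2, hD2, hT2⟩ := drop G M k hk hkM w1 hw1 h0
      obtain ⟨w3, hw3, hD3, hT3⟩ := ih M' hM' w2 hw2
      exact ⟨w3, hw3, by rw [hD3, hD2, hD], by rw [hT2] at hT3; exact hT.trans hT3⟩
    by_cases hM0 : M = 0
    · subst hM0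
      have := hw.sum
      simp at this
    by_cases hM2 : M ≤ 2
    · have hrel : ∀ i j : Fin M, can M i j ↔ can 3
          ((fun i : Fin M => if (i : ℕ) = 0 then (0 : Fin 3) else 2) i)
          ((fun i : Fin M => if (i : ℕ) = 0 then (0 : Fin 3) else 2) j) := by
        intro i j
        have hi := i.2
        have hj := j.2
        unfold can
        simp only
        split_ifs <;> simp <;> omega
      refine ⟨push (fun i : Fin M => if (i : ℕ) = 0 then (0 : Fin 3) else 2) w, hw.push _, ?_, ?_⟩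
      · exact DD_push _ w (can M) (can 3) (can_symm M) (can_symm 3) (fun i j _ _ => hrel i j)
      · exact (TT_push G _ w (can M) (can 3) (fun i j _ _ => hrel i j)).symm.le
    by_cases hM3 : M = 3
    · subst hM3
      exact ⟨w, hw, rfl, le_rfl⟩
    by_cases hM4 : M = 4
    · subst hM4
      rcases eq_or_lt_of_le (hw.nonneg 1) with h1 | h1
      · exact hdrop w hw rfl le_rfl 1 le_rfl (by norm_num) h1.symm
      rcases eq_or_lt_of_le (hw.nonneg 2) with h2 | h2
      · exact hdrop w hw rfl le_rfl 2 (by norm_num) (by norm_num) h2.symm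
      rcases eq_or_lt_of_le (hw.nonneg 3) with h3 | h3
      · exact hdrop w hw rfl le_rfl 3 (by norm_num) (by norm_num) h3.symm
      obtain ⟨w1, hw1, hD1, hT1, hz⟩ := four_move G w hw h1 h2 h3
      rcases hz with hz | hz
      · exact hdrop w1 hw1 hD1 hT1 2 (by norm_num) (by norm_num) hz
      · exact hdrop w1 hw1 hD1 hT1 3 (by norm_num) (by norm_num) hz
    have hM5 : 5 ≤ M := by omega
    rcases eq_or_lt_of_le (hw.nonneg ⟨1, by omega⟩) with h1 | h1
    · exact hdrop w hw rfl le_rfl 1 le_rfl (by omega) h1.symm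
    rcases eq_or_lt_of_le (hw.nonneg ⟨M - 2, by omega⟩) with h2 | h2
    · exact hdrop w hw rfl le_rfl (M - 2) (by omega) (by omega) h2.symm
    obtain ⟨w1, hw1, hD1, hT1, hz⟩ := corner_move G (can_corner M hM5) w hw h1 h2
    rcases hz with hz | hz
    · exact hdrop w1 hw1 hD1 hT1 2 (by norm_num) (by omega) hz
    · exact hdrop w1 hw1 hD1 hT1 (M - 1) (by omega) (by omega) hz

end

end Pool.Agent.LibTGraph
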