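import Pool.Agent.LibTGraph.Kelmans
import Pool.Agent.LibTGraph.Reduce

namespace Pool.Agent.LibTGraph

open Finset

section

variable {N : ℕ}

open scoped Classical in
/-- degree as a natural number -/
noncomputable def dn (A : SimpleGraph (Fin N)) (x : Fin N) : ℕ :=
  ((univ : Finset (Fin N)).filter (fun y => A.Adj x y)).card

lemma sum_ind {ι : Type*} (s : Finset ι) (p : ι → Prop) [DecidablePred p] :
    ∑ y ∈ s, ind (p y) = ((s.filter p).card : ℝ) := by
  rw [card_filter]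
  push_cast
  apply sum_congr rfl
  intro y _
  by_cases h : p y
  · rw [ind_pos h, if_pos h]
  · rw [ind_neg h, if_neg h]

lemma dg_eq (A : SimpleGraph (Fin N)) (x : Fin N) : dg A x = dn A x := by
  classical
  unfold dg dn
  rw [sum_ind]

lemma dn_le (A : SimpleGraph (Fin N)) (x : Fin N) : dn A x ≤ N := by
  classical
  unfold dn
  refine (card_filter_le _ _).trans ?_
  rw [card_univ, Fintype.card_fin]

lemma exists_rank (A : SimpleGraph (Fin N)) :
    ∃ r : Equiv.Perm (Fin N), ∀ y z, r z < r y → dg A y ≤ dg A z := by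
  refine ⟨(Tuple.sort (fun x => - dg A x)).symm, ?_⟩
  intro y z h
  have := Tuple.monotone_sort (fun x => - dg A x) h.le
  simp only [Function.comp_apply, Equiv.apply_symm_apply] at this
  linarith

lemma sum_rank (r : Equiv.Perm (Fin N)) (k : ℕ) (hk : k ≤ N) :
    ∑ y, ind ((r y : ℕ) < k) = k := by
  rw [Equiv.sum_comp r (fun i : Fin N => ind ((i : ℕ) < k)),
    Fin.sum_univ_eq_sum_range (fun i => ind (i < k)) N]
  classical
  rw [sum_ind]
  congr 1
  have : (range N).filter (fun i => i < k) = range k := by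
    ext i
    simp only [mem_filter, mem_range]
    omega
  rw [this, card_range]

lemma mu_le (A : SimpleGraph (Fin N)) {Q : ℝ} (hQ : ∀ u w : Fin N, u ≠ w →
    (mu A u w - ind (A.Adj u w)) * (mu A w u - ind (A.Adj u w)) ≤ Q) {y z : Fin N} (hyz : y ≠ z)
    (hd : dg A y ≤ dg A z) : mu A y z ≤ √Q + 1 := by
  have h1 := hQ y z hyz
  have h2 := mu_sub A hyz
  have h3 := mu_ge A hyz
  have h4 := ind_le_one (A.Adj y z)
  have h5 : (mu A y z - ind (A.Adj y z)) ^ 2 ≤ Q := by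
    calc (mu A y z - ind (A.Adj y z)) ^ 2
        = (mu A y z - ind (A.Adj y z)) * (mu A y z - ind (A.Adj y z)) := by ring
      _ ≤ (mu A y z - ind (A.Adj y z)) * (mu A z y - ind (A.Adj y z)) := by
          apply mul_le_mul_of_nonneg_left _ h3
          linarith
      _ ≤ Q := h1
  have h6 := Real.le_sqrt_of_sq_le h5
  linarith

/-- one sided defect -/
noncomputable def k1 (A : SimpleGraph (Fin N)) (r : Equiv.Perm (Fin N)) (x : Fin N) : ℝ :=
  ∑ y, ind (A.Adj x y ∧ dn A x ≤ (r y : ℕ))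

/-- the other defect -/
noncomputable def k2 (A : SimpleGraph (Fin N)) (r : Equiv.Perm (Fin N)) (x : Fin N) : ℝ :=
  ∑ y, ind (¬ A.Adj x y ∧ (r y : ℕ) < dn A x)

lemma k1_eq_k2 (A : SimpleGraph (Fin N)) (r : Equiv.Perm (Fin N)) (x : Fin N) :
    k1 A r x = k2 A r x := by
  have h1 : dg A x = k1 A r x + ∑ y, ind (A.Adj x y ∧ (r y : ℕ) < dn A x) := by
    unfold dg k1
    rw [← sum_add_distrib]
    apply sum_congr rfl
    intro y _
    by_cases ha : A.Adj x y
    · by_cases hb : (r y : ℕ) < dn A x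
      · rw [ind_pos ha, ind_neg (fun h => absurd hb (not_lt.2 h.2)), ind_pos ⟨ha, hb⟩]; ring
      · rw [ind_pos ha, ind_pos ⟨ha, not_lt.1 hb⟩, ind_neg (fun h => hb h.2)]; ring
    · rw [ind_neg ha, ind_neg (fun h => ha h.1), ind_neg (fun h => ha h.1)]; ring
  have h2 : ((dn A x : ℕ) : ℝ) = k2 A r x + ∑ y, ind (A.Adj x y ∧ (r y : ℕ) < dn A x) := by
    rw [← sum_rank r (dn A x) (dn_le A x)]
    unfold k2
    rw [← sum_add_distrib]
    apply sum_congr rfl
    intro y _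
    by_cases ha : A.Adj x y
    · rw [ind_neg (fun h : ¬ A.Adj x y ∧ _ => h.1 ha), zero_add]
      exact ind_congr ⟨fun h => ⟨ha, h⟩, fun h => h.2⟩
    · rw [ind_neg (fun h : A.Adj x y ∧ _ => ha h.1), add_zero]
      exact ind_congr ⟨fun h => ⟨ha, h⟩, fun h => h.2⟩
  rw [← dg_eq] at h2
  linarith

lemma k1_sq (A : SimpleGraph (Fin N)) (r : Equiv.Perm (Fin N))
    (hr : ∀ y z, r z < r y → dg A y ≤ dg A z) {Q : ℝ} (hQ : ∀ u w : Fin N, u ≠ w →
    (mu A u w - ind (A.Adj u w)) * (mu A w u - ind (A.Adj u w)) ≤ Q) :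
    ∑ x, (k1 A r x) ^ 2 ≤ (N : ℝ) ^ 2 * (√Q + 1) := by
  have h1 : ∀ x, (k1 A r x) ^ 2 ≤ ∑ y, ∑ z, ind (r z < r y) * ind (A.Adj y x ∧ ¬ A.Adj z x) := by
    intro x
    calc (k1 A r x) ^ 2 = k1 A r x * k2 A r x := by rw [← k1_eq_k2]; ring
      _ = ∑ y, ∑ z, ind (A.Adj x y ∧ dn A x ≤ (r y : ℕ)) *
          ind (¬ A.Adj x z ∧ (r z : ℕ) < dn A x) := by
          unfold k1 k2
          rw [sum_mul_sum]
      _ ≤ _ := by
          apply sum_le_sum
          intro y _
          apply sum_le_sum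
          intro z _
          by_cases ha : A.Adj x y ∧ dn A x ≤ (r y : ℕ)
          · by_cases hb : ¬ A.Adj x z ∧ (r z : ℕ) < dn A x
            · have hlt : r z < r y := by
                rw [Fin.lt_def]
                exact lt_of_lt_of_le hb.2 ha.2
              rw [ind_pos ha, ind_pos hb, ind_pos hlt, ind_pos ⟨ha.1.symm, fun h => hb.1 h.symm⟩]
            · rw [ind_neg hb, mul_zero]
              exact mul_nonneg (ind_nonneg _) (ind_nonneg _)
          · rw [ind_neg ha, zero_mul]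
            exact mul_nonneg (ind_nonneg _) (ind_nonneg _)
  calc ∑ x, (k1 A r x) ^ 2
      ≤ ∑ x, ∑ y, ∑ z, ind (r z < r y) * ind (A.Adj y x ∧ ¬ A.Adj z x) :=
        sum_le_sum (fun x _ => h1 x)
    _ = ∑ y, ∑ z, ind (r z < r y) * mu A y z := by
        rw [sum_comm]
        apply sum_congr rfl
        intro y _
        rw [sum_comm]
        apply sum_congr rfl
        intro z _
        unfold mu
        rw [mul_sum]
    _ ≤ ∑ _y : Fin N, ∑ _z : Fin N, (√Q + 1) := by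
        apply sum_le_sum
        intro y _
        apply sum_le_sum
        intro z _
        by_cases hlt : r z < r y
        · rw [ind_pos hlt, one_mul]
          apply mu_le A hQ _ (hr y z hlt)
          rintro rfl
          exact lt_irrefl _ hlt
        · rw [ind_neg hlt, zero_mul]
          positivity
    _ = _ := by
        simp only [sum_const, card_univ, Fintype.card_fin, nsmul_eq_mul]
        ring

/-- the nearby threshold relation -/
def sp (A : SimpleGraph (Fin N)) (r : Equiv.Perm (Fin N)) (x y : Fin N) : Prop :=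
  (r x : ℕ) + (r y : ℕ) < dn A x + dn A y

lemma diff1 (A : SimpleGraph (Fin N)) (r : Equiv.Perm (Fin N)) :
    ∑ x, ∑ y, ind (A.Adj x y ∧ ¬ sp A r x y) ≤ 2 * ∑ x, k1 A r x := by
  have h1 : ∀ x y, ind (A.Adj x y ∧ ¬ sp A r x y) ≤ ind (A.Adj x y ∧ dn A x ≤ (r y : ℕ)) +
      ind (A.Adj y x ∧ dn A y ≤ (r x : ℕ)) := by
    intro x y
    by_cases ha : A.Adj x y ∧ ¬ sp A r x y
    · rw [ind_pos ha]
      obtain ⟨h1, h2⟩ := ha
      unfold sp at h2
      by_cases h3 : dn A x ≤ (r y : ℕ)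
      · rw [ind_pos ⟨h1, h3⟩]
        have := ind_nonneg (A.Adj y x ∧ dn A y ≤ (r x : ℕ))
        linarith
      · have h4 : dn A y ≤ (r x : ℕ) := by omega
        rw [ind_pos (show A.Adj y x ∧ dn A y ≤ (r x : ℕ) from ⟨h1.symm, h4⟩)]
        have := ind_nonneg (A.Adj x y ∧ dn A x ≤ (r y : ℕ))
        linarith
    · rw [ind_neg ha]
      exact add_nonneg (ind_nonneg _) (ind_nonneg _)
  calc ∑ x, ∑ y, ind (A.Adj x y ∧ ¬ sp A r x y)
      ≤ ∑ x, ∑ y, (ind (A.Adj x y ∧ dn A x ≤ (r y : ℕ)) +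
        ind (A.Adj y x ∧ dn A y ≤ (r x : ℕ))) :=
        sum_le_sum (fun x _ => sum_le_sum (fun y _ => h1 x y))
    _ = ∑ x, ∑ y, ind (A.Adj x y ∧ dn A x ≤ (r y : ℕ)) +
        ∑ x, ∑ y, ind (A.Adj y x ∧ dn A y ≤ (r x : ℕ)) := by
        rw [← sum_add_distrib]
        apply sum_congr rfl
        intro x _
        rw [sum_add_distrib]
    _ = ∑ x, k1 A r x + ∑ y, k1 A r y := by
        unfold k1
        congr 1
        rw [sum_comm]
    _ = _ := by ring

lemma diff2 (A : SimpleGraph (Fin N)) (r : Equiv.Perm (Fin N)) :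
    ∑ x, ∑ y, ind (sp A r x y ∧ ¬ A.Adj x y) ≤ 2 * ∑ x, k1 A r x := by
  have h1 : ∀ x y, ind (sp A r x y ∧ ¬ A.Adj x y) ≤ ind (¬ A.Adj x y ∧ (r y : ℕ) < dn A x) +
      ind (¬ A.Adj y x ∧ (r x : ℕ) < dn A y) := by
    intro x y
    by_cases ha : sp A r x y ∧ ¬ A.Adj x y
    · rw [ind_pos ha]
      obtain ⟨h2, h1⟩ := ha
      unfold sp at h2
      by_cases h3 : (r y : ℕ) < dn A x
      · rw [ind_pos ⟨h1, h3⟩]
        have := ind_nonneg (¬ A.Adj y x ∧ (r x : ℕ) < dn A y)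
        linarith
      · have h4 : (r x : ℕ) < dn A y := by omega
        rw [ind_pos (show ¬ A.Adj y x ∧ (r x : ℕ) < dn A y from ⟨fun h => h1 h.symm, h4⟩)]
        have := ind_nonneg (¬ A.Adj x y ∧ (r y : ℕ) < dn A x)
        linarith
    · rw [ind_neg ha]
      exact add_nonneg (ind_nonneg _) (ind_nonneg _)
  calc ∑ x, ∑ y, ind (sp A r x y ∧ ¬ A.Adj x y)
      ≤ ∑ x, ∑ y, (ind (¬ A.Adj x y ∧ (r y : ℕ) < dn A x) +
        ind (¬ A.Adj y x ∧ (r x : ℕ) < dn A y)) :=
        sum_le_sum (fun x _ => sum_le_sum (fun y _ => h1 x y))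
    _ = ∑ x, ∑ y, ind (¬ A.Adj x y ∧ (r y : ℕ) < dn A x) +
        ∑ x, ∑ y, ind (¬ A.Adj y x ∧ (r x : ℕ) < dn A y) := by
        rw [← sum_add_distrib]
        apply sum_congr rfl
        intro x _
        rw [sum_add_distrib]
    _ = ∑ x, k2 A r x + ∑ y, k2 A r y := by
        unfold k2
        congr 1
        rw [sum_comm]
    _ = _ := by
        simp only [← k1_eq_k2]
        ring

lemma DD_uw_ind (rel : Fin N → Fin N → Prop) :
    DD rel (uw N) = (∑ i, ∑ j, ind (rel i j)) / (N : ℝ) ^ 2 := by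
  classical
  have h : ∀ i j, (if rel i j then (1 : ℝ) else 0) = ind (rel i j) := by
    intro i j
    by_cases h : rel i j
    · rw [if_pos h, ind_pos h]
    · rw [if_neg h, ind_neg h]
  rw [DD_uw]
  simp only [h]

lemma ind_sub_le (p q : Prop) : ind p - ind q ≤ ind (p ∧ ¬ q) := by
  rw [ind_diff]
  have : ind (p ∧ q) ≤ ind q := by
    by_cases hq : q
    · rw [ind_pos hq]; exact ind_le_one _
    · rw [ind_neg (fun h : p ∧ q => hq h.2), ind_neg hq]
  linarith

lemma DD_sub_le (rel rel' : Fin N → Fin N → Prop) {k : ℝ}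
    (hk : ∑ x, ∑ y, ind (rel x y ∧ ¬ rel' x y) ≤ k) :
    DD rel (uw N) - DD rel' (uw N) ≤ k / (N : ℝ) ^ 2 := by
  rw [DD_uw_ind, DD_uw_ind, ← sub_div]
  apply div_le_div_of_nonneg_right _ (by positivity)
  refine le_trans ?_ hk
  rw [← sum_sub_distrib]
  apply sum_le_sum
  intro x _
  rw [← sum_sub_distrib]
  exact sum_le_sum (fun y _ => ind_sub_le _ _)

lemma DD_adj (A : SimpleGraph (Fin N)) : DD A.Adj (uw N) = (∑ x, dg A x) / (N : ℝ) ^ 2 := by
  rw [DD_uw_ind]
  rfl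

lemma uw_simp (hN : 0 < N) : Simp (uw N) := by
  constructor
  · intro k
    unfold uw
    positivity
  · unfold uw
    rw [sum_const, card_univ, Fintype.card_fin, nsmul_eq_mul]
    have : (N : ℝ) ≠ 0 := by exact_mod_cast hN.ne'
    field_simp

variable {V : Type*} [Fintype V] [DecidableEq V] (G : SimpleGraph V)

/-- a graph with small defects is close to a canonical structure -/
lemma near (hN : 0 < N) (A : SimpleGraph (Fin N)) {Q : ℝ} (hQ : ∀ u w : Fin N, u ≠ w →
    (mu A u w - ind (A.Adj u w)) * (mu A w u - ind (A.Adj u w)) ≤ Q) :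
    ∃ w : Fin (2 * N) → ℝ, Simp w ∧
      |DD (can (2 * N)) w - DD A.Adj (uw N)| ≤ 2 * √((√Q + 1) / N) ∧
      TT G A.Adj (uw N) ≤ TT G (can (2 * N)) w +
        (Fintype.card V : ℝ) ^ 2 * (2 * √((√Q + 1) / N)) := by
  classical
  have hN0 : (0 : ℝ) < N := by exact_mod_cast hN
  obtain ⟨r, hr⟩ := exists_rank A
  have hk := k1_sq A r hr hQ
  set κ := ∑ x, k1 A r x with hκ
  have hκ2 : κ ^ 2 ≤ (N : ℝ) ^ 3 * (√Q + 1) := by
    have h1 := sq_sum_le_card_mul_sum_sq (s := (univ : Finset (Fin N))) (f := k1 A r)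
    rw [card_univ, Fintype.card_fin] at h1
    calc κ ^ 2 ≤ (N : ℝ) * ∑ x, (k1 A r x) ^ 2 := h1
      _ ≤ (N : ℝ) * ((N : ℝ) ^ 2 * (√Q + 1)) := by gcongr
      _ = _ := by ring
  have hκN : κ / (N : ℝ) ^ 2 ≤ √((√Q + 1) / N) := by
    apply Real.le_sqrt_of_sq_le
    rw [div_pow, div_le_div_iff₀ (by positivity) hN0]
    calc κ ^ 2 * N ≤ ((N : ℝ) ^ 3 * (√Q + 1)) * N := by gcongr
      _ = _ := by ring
  have hd1 := diff1 A r
  have hd2 := diff2 A r
  -- the classes
  have hc : ∀ x : Fin N, (r x : ℕ) + N - dn A x < 2 * N := by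
    intro x
    have := (r x).2
    omega
  have hcan : ∀ x y, sp A r x y ↔ can (2 * N) ⟨(r x : ℕ) + N - dn A x, hc x⟩
      ⟨(r y : ℕ) + N - dn A y, hc y⟩ := by
    intro x y
    have h1 := dn_le A x
    have h2 := dn_le A y
    unfold sp can
    simp only
    omega
  have hsymm : ∀ x y, sp A r x y → sp A r y x := by
    intro x y h
    unfold sp at *
    omega
  refine ⟨push (fun x : Fin N => (⟨(r x : ℕ) + N - dn A x, hc x⟩ : Fin (2 * N))) (uw N),
    (uw_simp hN).push _, ?_, ?_⟩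
  · rw [DD_push _ (uw N) (sp A r) (can (2 * N)) hsymm (can_symm _) (fun i j _ _ => hcan i j)]
    rw [abs_le]
    have e1 := DD_sub_le A.Adj (sp A r) hd1
    have e2 := DD_sub_le (sp A r) A.Adj hd2
    have e3 : 2 * κ / (N : ℝ) ^ 2 ≤ 2 * √((√Q + 1) / N) := by
      rw [mul_div_assoc]
      linarith
    constructor
    · linarith
    · linarith
  · rw [TT_push G _ (uw N) (sp A r) (can (2 * N)) (fun i j _ _ => hcan i j)]
    refine (TT_uw_le G hN A.Adj (sp A r)).trans ?_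
    have e1 : (((univ : Finset (Fin N × Fin N)).filter
        (fun p => A.Adj p.1 p.2 ∧ ¬ sp A r p.1 p.2)).card : ℝ) ≤ 2 * κ := by
      rw [← sum_ind, ← univ_product_univ, sum_product]
      exact hd1
    have e2 : (Fintype.card V : ℝ) ^ 2 * (((univ : Finset (Fin N × Fin N)).filter
        (fun p => A.Adj p.1 p.2 ∧ ¬ sp A r p.1 p.2)).card : ℝ) / (N : ℝ) ^ 2 ≤
        (Fintype.card V : ℝ) ^ 2 * (2 * √((√Q + 1) / N)) := by
      rw [mul_div_assoc]
      apply mul_le_mul_of_nonneg_left _ (by positivity)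
      calc _ ≤ 2 * κ / (N : ℝ) ^ 2 := by gcongr
        _ ≤ _ := by rw [mul_div_assoc]; linarith
    linarith

/-- every graph is dominated up to a small error by a three-class structure -/
theorem stepA (hN : 0 < N) {ε : ℝ} (hε : 0 < ε) (A0 : SimpleGraph (Fin N)) :
    ∃ w : Fin 3 → ℝ, Simp w ∧
      |DD (can 3) w - DD A0.Adj (uw N)| ≤
        2 * √((√(2 * (Fintype.card V : ℝ) ^ 2 * N / ε) + 1) / N) ∧
      TT G A0.Adj (uw N) ≤ TT G (can 3) w + ε + (Fintype.card V : ℝ) ^ 2 *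
        (2 * √((√(2 * (Fintype.card V : ℝ) ^ 2 * N / ε) + 1) / N)) := by
  obtain ⟨A, hA1, hA2, hA3⟩ := exists_good G hN hε A0
  obtain ⟨w, hw, hD, hT⟩ := near G hN A hA3
  obtain ⟨w', hw', hD', hT'⟩ := reduce G (2 * N) w hw
  refine ⟨w', hw', ?_, ?_⟩
  · rw [hD', DD_adj A0, ← hA1, ← DD_adj]
    exact hD
  · linarith

end

end Pool.Agent.LibTGraph
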